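import Mathlib

set_option autoImplicit false

namespace Pool.Agent.FourExp

/-- Linear algebra over `ℚ`: if the product of two linear forms `c₀, c₃` equals the product of two
linear forms `c₁, c₂` then the 2×2 matrix of linear forms has dependent rows or columns. -/
lemma forms_dichotomy {ι : Type*} (c0 c1 c2 c3 : ι → ℚ)
    (h : ∀ l m, c3 l * c0 m + c0 l * c3 m = c2 l * c1 m + c1 l * c2 m) :
    ∃ r s : ℚ, (r ≠ 0 ∨ s ≠ 0) ∧
      ((∀ l, r * c0 l + s * c2 l = 0 ∧ r * c1 l + s * c3 l = 0) ∨
       (∀ l, r * c0 l + s * c1 l = 0 ∧ r * c2 l + s * c3 l = 0)) := by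
  by_cases h0 : ∀ l, c0 l = 0
  · -- c0 = 0
    by_cases h1 : ∀ l, c1 l = 0
    · exact ⟨1, 0, Or.inl one_ne_zero, Or.inl (fun l => ⟨by rw [h0 l]; ring, by rw [h1 l]; ring⟩)⟩
    · push Not at h1
      obtain ⟨m, hm⟩ := h1
      have h2 : ∀ l, c2 l = 0 := by
        have hmm := h m m
        rw [h0 m] at hmm
        have h2m : c2 m = 0 := by
          have : c2 m * c1 m = 0 := by linarith
          rcases mul_eq_zero.mp this with h' | h'
          · exact h'
          · exact absurd h' hm
        intro l
        have hlm := h l m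
        rw [h0 m, h0 l, h2m] at hlm
        have : c2 l * c1 m = 0 := by linarith
        rcases mul_eq_zero.mp this with h' | h'
        · exact h'
        · exact absurd h' hm
      exact ⟨1, 0, Or.inl one_ne_zero, Or.inr (fun l => ⟨by rw [h0 l]; ring, by rw [h2 l]; ring⟩)⟩
  · push Not at h0
    obtain ⟨m, hm⟩ := h0
    set q := c1 m / c0 m with hq
    set r := c2 m / c0 m with hr
    have hc1 : c1 m = q * c0 m := by rw [hq]; field_simp
    have hc2 : c2 m = r * c0 m := by rw [hr]; field_simp
    have hc3 : c3 m = q * r * c0 m := by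
      have hmm := h m m
      rw [hc1, hc2] at hmm
      have : c0 m * (c3 m - q * r * c0 m) = 0 := by linarith
      rcases mul_eq_zero.mp this with h' | h'
      · exact absurd h' hm
      · linarith
    have key : ∀ l, c3 l = q * c2 l + r * c1 l - q * r * c0 l := by
      intro l
      have hlm := h l m
      rw [hc1, hc2, hc3] at hlm
      have : c0 m * (c3 l - (q * c2 l + r * c1 l - q * r * c0 l)) = 0 := by linarith
      rcases mul_eq_zero.mp this with h' | h'
      · exact absurd h' hm
      · linarith
    have hxy : ∀ l n, (c2 l - r * c0 l) * (c1 n - q * c0 n) +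
        (c2 n - r * c0 n) * (c1 l - q * c0 l) = 0 := by
      intro l n
      have hln := h l n
      rw [key l, key n] at hln
      linarith
    by_cases hx : ∀ l, c2 l - r * c0 l = 0
    · refine ⟨-r, 1, Or.inr one_ne_zero, Or.inl (fun l => ⟨by linarith [hx l], ?_⟩)⟩
      rw [key l]
      have := hx l
      have h2 : c2 l = r * c0 l := by linarith
      rw [h2]; ring
    · push Not at hx
      obtain ⟨l0, hl0⟩ := hx
      have hy0 : c1 l0 - q * c0 l0 = 0 := by
        have := hxy l0 l0
        have h2 : (c2 l0 - r * c0 l0) * (c1 l0 - q * c0 l0) = 0 := by linarith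
        rcases mul_eq_zero.mp h2 with h' | h'
        · exact absurd h' hl0
        · exact h'
      have hy : ∀ n, c1 n - q * c0 n = 0 := by
        intro n
        have := hxy l0 n
        rw [hy0] at this
        have h2 : (c2 l0 - r * c0 l0) * (c1 n - q * c0 n) = 0 := by linarith
        rcases mul_eq_zero.mp h2 with h' | h'
        · exact absurd h' hl0
        · exact h'
      refine ⟨-q, 1, Or.inr one_ne_zero, Or.inr (fun l => ⟨by linarith [hy l], ?_⟩)⟩
      rw [key l]
      have h2 : c1 l = q * c0 l := by linarith [hy l]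
      rw [h2]; ring

section

variable {L : Type*} [Field L] [CharZero L] [Algebra ℚ L] (K : IntermediateField ℚ L)
variable {κ : Type*} (D : κ → Derivation ℚ L L)

/-- Kolchin–Ostrowski type lemma: linear independence over the constants modulo `K` implies linear
independence over `K` modulo `K`. -/
lemma linindep_of_const
    (h1 : ∀ k, ∀ x ∈ K, D k x ∈ K)
    (h2 : ∀ x ∈ K, (∀ k, D k x = 0) → ∃ q : ℚ, x = algebraMap ℚ L q)
    {ι : Type*} [Fintype ι] (e : ι → L) (he : ∀ k i, D k (e i) ∈ K)
    (hc : ∀ c : ι → ℚ, (∑ i, algebraMap ℚ L (c i) * e i ∈ K) → c = 0) :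
    ∀ f : ι → L, (∀ i, f i ∈ K) → (∑ i, f i * e i ∈ K) → f = 0 := by
  classical
  have main : ∀ n : ℕ, ∀ f : ι → L, (∀ i, f i ∈ K) →
      (Finset.univ.filter (fun i => f i ≠ 0)).card ≤ n → (∑ i, f i * e i ∈ K) → f = 0 := by
    intro n
    induction n with
    | zero =>
      intro f _ hcard _
      ext i
      by_contra hi
      have : i ∈ Finset.univ.filter (fun i => f i ≠ 0) := by simpa using hi
      have h3 := Finset.card_pos.mpr ⟨i, this⟩
      omega
    | succ n ih =>
      intro f hf hcard hsum
      by_contra hne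
      obtain ⟨i0, hi0⟩ : ∃ i, f i ≠ 0 := by
        by_contra h'
        push Not at h'
        exact hne (funext h')
      set g : ι → L := fun i => f i / f i0 with hg
      have hgK : ∀ i, g i ∈ K := fun i => K.div_mem (hf i) (hf i0)
      have hgsum : ∑ i, g i * e i ∈ K := by
        have : ∑ i, g i * e i = (∑ i, f i * e i) / f i0 := by
          rw [Finset.sum_div]
          apply Finset.sum_congr rfl
          intro i _
          simp only [hg]
          ring
        rw [this]
        exact K.div_mem hsum (hf i0)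
      have hg1 : g i0 = 1 := div_self hi0
      have hDg : ∀ k, (fun i => D k (g i)) = 0 := by
        intro k
        apply ih (fun i => D k (g i)) (fun i => h1 k _ (hgK i))
        · have hss : Finset.univ.filter (fun i => D k (g i) ≠ 0) ⊆
              (Finset.univ.filter (fun i => f i ≠ 0)).erase i0 := by
            intro i hi
            simp only [Finset.mem_filter, Finset.mem_univ, true_and] at hi
            simp only [Finset.mem_erase, Finset.mem_filter, Finset.mem_univ, true_and]
            constructor
            · intro h'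
              rw [h', hg1] at hi
              exact hi (by simp)
            · intro h'
              apply hi
              simp only [hg, h', zero_div, map_zero]
          have := Finset.card_le_card hss
          rw [Finset.card_erase_of_mem (by simp [hi0])] at this
          omega
        · have : ∑ i, D k (g i) * e i = D k (∑ i, g i * e i) - ∑ i, g i * D k (e i) := by
            rw [map_sum, ← Finset.sum_sub_distrib]
            apply Finset.sum_congr rfl
            intro i _
            rw [Derivation.leibniz]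
            simp only [smul_eq_mul]
            ring
          rw [this]
          exact K.sub_mem (h1 k _ hgsum)
            (K.sum_mem (fun i _ => K.mul_mem (hgK i) (he k i)))
      have hgq : ∀ i, ∃ q : ℚ, g i = algebraMap ℚ L q := by
        intro i
        apply h2 _ (hgK i)
        intro k
        exact congrFun (hDg k) i
      choose q hq using hgq
      have hq0 : q = 0 := by
        apply hc
        have : ∑ i, algebraMap ℚ L (q i) * e i = ∑ i, g i * e i := by
          apply Finset.sum_congr rfl
          intro i _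
          rw [hq i]
        rw [this]
        exact hgsum
      have : g i0 = 0 := by rw [hq i0, hq0]; simp
      rw [hg1] at this
      exact one_ne_zero this
  intro f hf hsum
  exact main _ f hf le_rfl hsum

/-- Logarithmic derivative of a product of integer powers. -/
lemma deriv_prod_zpow {ι : Type*} (s : Finset ι) (d : Derivation ℚ L L) (a w : ι → L)
    (ha : ∀ i, a i ≠ 0) (hw : ∀ i, d (w i) * a i = d (a i)) (n : ι → ℤ) :
    d (∏ i ∈ s, a i ^ n i) = (∏ i ∈ s, a i ^ n i) * d (∑ i ∈ s, (n i : L) * w i) := by
  classical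
  induction s using Finset.induction_on with
  | empty => simp
  | insert j s hj ih =>
    rw [Finset.prod_insert hj, Finset.sum_insert hj, Derivation.leibniz, ih, map_add,
      Derivation.leibniz_zpow, Derivation.leibniz]
    simp only [smul_eq_mul, Derivation.map_intCast, mul_zero, add_zero]
    rw [← hw j]
    have hz : a j ^ (n j - 1) * a j = a j ^ n j := by
      rw [← zpow_add_one₀ (ha j)]
      simp
    have : (n j) • (a j ^ (n j - 1) * (d (w j) * a j)) = a j ^ n j * ((n j : L) * d (w j)) := by
      rw [zsmul_eq_mul, ← hz]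
      ring
    rw [this]
    ring

/-- Clearing denominators of rational coefficients. -/
lemma exists_int_scale {ι : Type*} [Fintype ι] (c : ι → ℚ) :
    ∃ (N : ℕ) (n : ι → ℤ), N ≠ 0 ∧ ∀ i, (n i : ℚ) = N * c i := by
  classical
  refine ⟨∏ i, (c i).den, fun i => (c i).num * ∏ j ∈ Finset.univ.erase i, ((c j).den : ℤ), ?_, ?_⟩
  · exact Finset.prod_ne_zero_iff.mpr (fun i _ => (c i).den_ne_zero)
  · intro i
    have h1 : (∏ j, ((c j).den : ℚ)) = ((c i).den : ℚ) * ∏ j ∈ Finset.univ.erase i, ((c j).den : ℚ) :=
      (Finset.mul_prod_erase Finset.univ (fun j => ((c j).den : ℚ)) (Finset.mem_univ i)).symm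
    push_cast
    rw [h1]
    have h2 : ((c i).den : ℚ) * c i = (c i).num := by
      rw [mul_comm]; exact Rat.mul_den_eq_num (c i)
    calc ((c i).num : ℚ) * ∏ j ∈ Finset.univ.erase i, ((c j).den : ℚ)
        = (((c i).den : ℚ) * c i) * ∏ j ∈ Finset.univ.erase i, ((c j).den : ℚ) := by rw [h2]
      _ = _ := by ring

/-- The differential-algebraic core of the argument. -/
theorem diff_core
    (h1 : ∀ k, ∀ x ∈ K, D k x ∈ K)
    (h2 : ∀ x ∈ K, (∀ k, D k x = 0) → ∃ q : ℚ, x = algebraMap ℚ L q)
    (w a : Fin 4 → L) (ha : ∀ i, a i ∈ K) (ha0 : ∀ i, a i ≠ 0)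
    (hw : ∀ k i, D k (w i) * a i = D k (a i))
    (h4 : ∀ e ∈ K, ∀ u ∈ K, u ≠ 0 → (∀ k, D k u = u * D k e) → ∃ q : ℚ, e = algebraMap ℚ L q)
    (h5 : ∀ n : Fin 4 → ℤ, (∃ q : ℚ, ∏ i, a i ^ n i = algebraMap ℚ L q) →
      ∑ i, (n i : L) * w i = 0)
    (h6 : ∀ n : Fin 4 → ℤ, (∃ q : ℚ, ∑ i, (n i : L) * w i = algebraMap ℚ L q) →
      ∑ i, (n i : L) * w i = 0)
    (h7 : w 0 * w 3 = w 1 * w 2) :
    ∃ r s : ℚ, (r ≠ 0 ∨ s ≠ 0) ∧
      ((algebraMap ℚ L r * w 0 + algebraMap ℚ L s * w 2 = 0 ∧
        algebraMap ℚ L r * w 1 + algebraMap ℚ L s * w 3 = 0) ∨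
       (algebraMap ℚ L r * w 0 + algebraMap ℚ L s * w 1 = 0 ∧
        algebraMap ℚ L r * w 2 + algebraMap ℚ L s * w 3 = 0)) := by
  classical
  -- scaling of rational combinations
  have scale : ∀ c : Fin 4 → ℚ, ∃ (N : ℕ) (n : Fin 4 → ℤ), (N : L) ≠ 0 ∧
      ∑ i, (n i : L) * w i = (N : L) * ∑ i, algebraMap ℚ L (c i) * w i := by
    intro c
    obtain ⟨N, n, hN, hn⟩ := exists_int_scale c
    refine ⟨N, n, by exact_mod_cast hN, ?_⟩
    rw [Finset.mul_sum]
    apply Finset.sum_congr rfl
    intro i _
    have : (n i : L) = algebraMap ℚ L ((N : ℚ) * c i) := by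
      rw [← hn i]; simp
    rw [this]
    simp [mul_assoc]
  have hdw : ∀ k i, D k (w i) ∈ K := by
    intro k i
    have : D k (w i) = D k (a i) / a i := by
      rw [eq_div_iff (ha0 i)]; exact hw k i
    rw [this]
    exact K.div_mem (h1 k _ (ha i)) (ha i)
  -- (d') rational combinations lying in `K` vanish
  have hd : ∀ c : Fin 4 → ℚ, (∑ i, algebraMap ℚ L (c i) * w i ∈ K) →
      ∑ i, algebraMap ℚ L (c i) * w i = 0 := by
    intro c hc
    obtain ⟨N, n, hN, hn⟩ := scale c
    have hK : ∑ i, (n i : L) * w i ∈ K := by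
      rw [hn]
      exact K.mul_mem (by exact_mod_cast K.natCast_mem N) hc
    have huK : ∏ i, a i ^ n i ∈ K :=
      K.prod_mem (fun i _ => zpow_mem (ha i) _)
    have hu0 : ∏ i, a i ^ n i ≠ 0 :=
      Finset.prod_ne_zero_iff.mpr (fun i _ => zpow_ne_zero _ (ha0 i))
    have h := h4 _ hK _ huK hu0 (fun k =>
      deriv_prod_zpow Finset.univ (D k) a w ha0 (fun i => hw k i) n)
    have h' := h6 n h
    rw [hn] at h'
    rcases mul_eq_zero.mp h' with h'' | h''
    · exact absurd h'' hN
    · exact h''
  -- (e') rational combinations killed by all derivations vanish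
  have he : ∀ c : Fin 4 → ℚ, (∀ k, D k (∑ i, algebraMap ℚ L (c i) * w i) = 0) →
      ∑ i, algebraMap ℚ L (c i) * w i = 0 := by
    intro c hc
    obtain ⟨N, n, hN, hn⟩ := scale c
    have huK : ∏ i, a i ^ n i ∈ K :=
      K.prod_mem (fun i _ => zpow_mem (ha i) _)
    have hu : ∀ k, D k (∏ i, a i ^ n i) = 0 := by
      intro k
      rw [deriv_prod_zpow Finset.univ (D k) a w ha0 (fun i => hw k i) n, hn, Derivation.leibniz,
        hc k]
      simp
    have h' := h5 n (h2 _ huK hu)
    rw [hn] at h'
    rcases mul_eq_zero.mp h' with h'' | h''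
    · exact absurd h'' hN
    · exact h''
  -- a `ℚ`-basis of the span of the `w i`
  let V : Submodule ℚ L := Submodule.span ℚ (Set.range w)
  have : FiniteDimensional ℚ V := FiniteDimensional.span_of_finite ℚ (Set.finite_range w)
  let b := Module.finBasis ℚ V
  set r := Module.finrank ℚ V with hr
  let e : Fin r → L := fun l => (b l : L)
  let c : Fin 4 → Fin r → ℚ := fun i l => b.repr ⟨w i, Submodule.subset_span ⟨i, rfl⟩⟩ l
  have hwc : ∀ i, w i = ∑ l, algebraMap ℚ L (c i l) * e l := by
    intro i
    have h := b.sum_repr ⟨w i, Submodule.subset_span ⟨i, rfl⟩⟩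
    have h' := congrArg (fun x : V => (x : L)) h
    simp only [Submodule.coe_sum, Submodule.coe_smul] at h'
    rw [← h']
    apply Finset.sum_congr rfl
    intro l _
    rw [Algebra.smul_def]
  -- every basis vector is a rational combination of the `w i`
  have hew : ∀ l, ∃ g : Fin 4 → ℚ, e l = ∑ i, algebraMap ℚ L (g i) * w i := by
    intro l
    have hmem : e l ∈ Submodule.span ℚ (Set.range w) := (b l).2
    rw [Submodule.mem_span_range_iff_exists_fun] at hmem
    obtain ⟨g, hg⟩ := hmem
    exact ⟨g, by rw [← hg]; apply Finset.sum_congr rfl; intro i _; rw [Algebra.smul_def]⟩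
  choose g hg using hew
  have hcomb : ∀ f : Fin r → ℚ, ∃ G : Fin 4 → ℚ,
      ∑ l, algebraMap ℚ L (f l) * e l = ∑ i, algebraMap ℚ L (G i) * w i := by
    intro f
    refine ⟨fun i => ∑ l, f l * g l i, ?_⟩
    simp_rw [hg, Finset.mul_sum]
    rw [Finset.sum_comm]
    apply Finset.sum_congr rfl
    intro i _
    rw [map_sum, Finset.sum_mul]
    apply Finset.sum_congr rfl
    intro l _
    rw [map_mul]
    ring
  have hindep : ∀ f : Fin r → ℚ, ∑ l, algebraMap ℚ L (f l) * e l = 0 → f = 0 := by
    intro f hf
    have h : ∑ l, f l • b l = 0 := by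
      apply Subtype.ext
      simp only [Submodule.coe_sum, Submodule.coe_smul, ZeroMemClass.coe_zero]
      rw [← hf]
      apply Finset.sum_congr rfl
      intro l _
      rw [Algebra.smul_def]
    have := Fintype.linearIndependent_iff.mp b.linearIndependent f h
    exact funext this
  have hKlin := linindep_of_const K D h1 h2 e
    (fun k l => by
      rw [hg l, map_sum]
      apply K.sum_mem
      intro i _
      rw [Derivation.leibniz]
      simp only [smul_eq_mul, Derivation.map_algebraMap, mul_zero, add_zero]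
      exact K.mul_mem (K.algebraMap_mem _) (hdw k i))
    (fun f hf => by
      apply hindep
      obtain ⟨G, hG⟩ := hcomb f
      rw [hG] at hf ⊢
      exact hd G hf)
  -- derivative of the relation
  have hrel : ∀ l, ∑ i, algebraMap ℚ L ((![c 3 l, -c 2 l, -c 1 l, c 0 l] : Fin 4 → ℚ) i) * w i
      = 0 := by
    intro l
    apply he
    intro k
    have hk : D k (w 0) * w 3 + w 0 * D k (w 3) = D k (w 1) * w 2 + w 1 * D k (w 2) := by
      have := congrArg (D k) h7
      rw [Derivation.leibniz, Derivation.leibniz] at this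
      simp only [smul_eq_mul] at this
      linear_combination this
    have hsum : ∑ l, (D k (w 0) * algebraMap ℚ L (c 3 l) + D k (w 3) * algebraMap ℚ L (c 0 l)
        - D k (w 1) * algebraMap ℚ L (c 2 l) - D k (w 2) * algebraMap ℚ L (c 1 l)) * e l = 0 := by
      have e0 : ∑ l, (D k (w 0) * algebraMap ℚ L (c 3 l) + D k (w 3) * algebraMap ℚ L (c 0 l)
        - D k (w 1) * algebraMap ℚ L (c 2 l) - D k (w 2) * algebraMap ℚ L (c 1 l)) * e l
        = D k (w 0) * w 3 + D k (w 3) * w 0 - D k (w 1) * w 2 - D k (w 2) * w 1 := by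
        have t : ∀ (x : L) (i : Fin 4), x * w i = ∑ l, x * (algebraMap ℚ L (c i l) * e l) := by
          intro x i
          rw [← Finset.mul_sum, ← hwc i]
        rw [t (D k (w 0)) 3, t (D k (w 3)) 0, t (D k (w 1)) 2, t (D k (w 2)) 1]
        simp only [← Finset.sum_add_distrib, ← Finset.sum_sub_distrib]
        apply Finset.sum_congr rfl
        intro l _
        ring
      rw [e0]
      linear_combination hk
    have hz := hKlin (fun l => D k (w 0) * algebraMap ℚ L (c 3 l)
        + D k (w 3) * algebraMap ℚ L (c 0 l)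
        - D k (w 1) * algebraMap ℚ L (c 2 l) - D k (w 2) * algebraMap ℚ L (c 1 l))
      (fun l => by
        apply K.sub_mem (K.sub_mem (K.add_mem ?_ ?_) ?_) ?_
        all_goals exact K.mul_mem (hdw k _) (K.algebraMap_mem _))
      (by rw [hsum]; exact K.zero_mem)
    have hzl := congrFun hz l
    simp only [Pi.zero_apply] at hzl
    rw [map_sum, Fin.sum_univ_four]
    simp only [Derivation.leibniz, smul_eq_mul, Derivation.map_algebraMap, mul_zero, add_zero]
    simp only [Matrix.cons_val_zero, Matrix.cons_val_one, Matrix.cons_val, map_neg]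
    linear_combination hzl
  have hforms : ∀ l m, c 3 l * c 0 m + c 0 l * c 3 m = c 2 l * c 1 m + c 1 l * c 2 m := by
    intro l m
    have h := hrel l
    rw [Fin.sum_univ_four] at h
    simp only [Matrix.cons_val_zero, Matrix.cons_val_one, Matrix.cons_val, map_neg] at h
    have h' : ∑ m, algebraMap ℚ L (c 3 l * c 0 m - c 2 l * c 1 m - c 1 l * c 2 m + c 0 l * c 3 m)
        * e m = 0 := by
      rw [← h]
      conv_rhs => rw [hwc 0, hwc 1, hwc 2, hwc 3]
      simp only [Finset.mul_sum, ← Finset.sum_add_distrib]
      apply Finset.sum_congr rfl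
      intro m _
      simp only [map_add, map_sub, map_mul]
      ring
    have := congrFun (hindep _ h') m
    simp only [Pi.zero_apply] at this
    linarith
  obtain ⟨p, s, hps, hcase⟩ := forms_dichotomy (c 0) (c 1) (c 2) (c 3) hforms
  refine ⟨p, s, hps, ?_⟩
  have tr : ∀ i j : Fin 4, (∀ l, p * c i l + s * c j l = 0) →
      algebraMap ℚ L p * w i + algebraMap ℚ L s * w j = 0 := by
    intro i j h
    rw [hwc i, hwc j]
    simp only [Finset.mul_sum, ← Finset.sum_add_distrib]
    apply Finset.sum_eq_zero
    intro l _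
    have := congrArg (algebraMap ℚ L) (h l)
    simp only [map_add, map_mul, map_zero] at this
    linear_combination (e l) * this
  rcases hcase with h | h
  · left
    exact ⟨tr 0 2 (fun l => (h l).1), tr 1 3 (fun l => (h l).2)⟩
  · right
    exact ⟨tr 0 1 (fun l => (h l).1), tr 2 3 (fun l => (h l).2)⟩

end

end Pool.Agent.FourExp
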