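import Mathlib

set_option autoImplicit false

namespace Pool.Agent.FourExp

open MvPowerSeries Finsupp

/-- The finite set of exponents of total degree `< n` in `t` variables. -/
noncomputable def expSet (t n : ℕ) : Finset (Fin t →₀ ℕ) :=
  (finite_of_degree_lt (σ := Fin t) n).toFinset

lemma mem_expSet {t n : ℕ} {x : Fin t →₀ ℕ} : x ∈ expSet t n ↔ degree x < n := by
  simp [expSet]

lemma degree_succ_eq {s : ℕ} (x : Fin (s + 1) →₀ ℕ) :
    degree x = x 0 + ∑ i : Fin s, x i.succ := by
  rw [Finsupp.degree_eq_sum, Fin.sum_univ_succ]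

lemma card_expSet_le (s o M : ℕ) :
    (expSet (s + 1) M).card ≤ (expSet (s + 1) (M - o)).card + o * M ^ s := by
  classical
  have hsub : expSet (s + 1) (M - o) ⊆ expSet (s + 1) M := by
    intro x hx
    rw [mem_expSet] at hx ⊢
    omega
  have h1 : (expSet (s + 1) M \ expSet (s + 1) (M - o)).card ≤ o * M ^ s := by
    have : (Finset.range o ×ˢ Fintype.piFinset (fun _ : Fin s => Finset.range M)).card
        = o * M ^ s := by
      simp
    rw [← this]
    apply Finset.card_le_card_of_injOn
      (fun x => (degree x - (M - o), fun i : Fin s => x i.succ))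
    · intro x hx
      have hx' := Finset.mem_sdiff.mp (Finset.mem_coe.mp hx)
      rw [mem_expSet, mem_expSet] at hx'
      have hd := degree_succ_eq x
      simp only [Finset.coe_product, Set.mem_prod, Finset.mem_coe, Finset.mem_range,
        Fintype.mem_piFinset]
      refine ⟨by omega, fun i => ?_⟩
      have : x i.succ ≤ ∑ i : Fin s, x i.succ :=
        Finset.single_le_sum (f := fun i : Fin s => x i.succ) (fun _ _ => Nat.zero_le _)
          (Finset.mem_univ i)
      omega
    · intro x hx y hy hxy
      have hx' := Finset.mem_sdiff.mp (Finset.mem_coe.mp hx)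
      have hy' := Finset.mem_sdiff.mp (Finset.mem_coe.mp hy)
      rw [mem_expSet, mem_expSet] at hx' hy'
      simp only [Prod.mk.injEq] at hxy
      obtain ⟨h1, h2⟩ := hxy
      have hdx := degree_succ_eq x
      have hdy := degree_succ_eq y
      have hs : ∑ i : Fin s, x i.succ = ∑ i : Fin s, y i.succ :=
        Finset.sum_congr rfl (fun i _ => congrFun h2 i)
      ext i
      refine Fin.cases ?_ (fun j => congrFun h2 j) i
      omega
  have h2 := Finset.card_sdiff_add_card_eq_card hsub
  omega

lemma le_card_expSet (s e : ℕ) :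
    (e + 1) ^ (s + 1) ≤ (expSet (s + 1) ((s + 1) * e + 1)).card := by
  classical
  have : (Fintype.piFinset (fun _ : Fin (s + 1) => Finset.range (e + 1))).card
      = (e + 1) ^ (s + 1) := by
    simp
  rw [← this]
  apply Finset.card_le_card_of_injOn (fun x => Finsupp.equivFunOnFinite.symm x)
  · intro x hx
    have hx' := Finset.mem_coe.mp hx
    rw [Fintype.mem_piFinset] at hx'
    rw [Finset.mem_coe, mem_expSet, Finsupp.degree_eq_sum]
    have : ∑ i : Fin (s + 1), (Finsupp.equivFunOnFinite.symm x) i ≤ ∑ i : Fin (s + 1), e := by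
      apply Finset.sum_le_sum
      intro i _
      have := Finset.mem_range.mp (hx' i)
      simp only [Finsupp.coe_equivFunOnFinite_symm]
      omega
    simp only [Finset.sum_const, Finset.card_univ, Fintype.card_fin, smul_eq_mul] at this
    exact Nat.lt_succ_of_le this
  · intro x _ y _ hxy
    exact Finsupp.equivFunOnFinite.symm.injective hxy

/-- The basic counting inequality. -/
lemma exists_card_lt (s o L : ℕ) :
    ∃ d : ℕ, (expSet (s + 1) (L * (d + 1))).card <
      (expSet (s + 1) (d + 1)).card + (expSet (s + 1) (L * (d + 1) - o)).card := by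
  set e := o * (L * (s + 1)) ^ s with he
  refine ⟨(s + 1) * e, ?_⟩
  have h1 := card_expSet_le s o (L * ((s + 1) * e + 1))
  have h2 := le_card_expSet s e
  have h3 : o * (L * ((s + 1) * e + 1)) ^ s < (e + 1) ^ (s + 1) := by
    have h4 : L * ((s + 1) * e + 1) ≤ (L * (s + 1)) * (e + 1) := by
      have : (s + 1) * e + 1 ≤ (s + 1) * (e + 1) := by ring_nf; omega
      calc L * ((s + 1) * e + 1) ≤ L * ((s + 1) * (e + 1)) := Nat.mul_le_mul_left _ this
        _ = (L * (s + 1)) * (e + 1) := by ring
    calc o * (L * ((s + 1) * e + 1)) ^ s ≤ o * ((L * (s + 1)) * (e + 1)) ^ s :=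
          Nat.mul_le_mul_left _ (Nat.pow_le_pow_left h4 _)
      _ = e * (e + 1) ^ s := by rw [mul_pow, he]; ring
      _ < (e + 1) * (e + 1) ^ s := by
          apply Nat.mul_lt_mul_of_pos_right (Nat.lt_succ_self _)
          positivity
      _ = (e + 1) ^ (s + 1) := by ring
  omega

/-- The polynomial with prescribed coefficients on a finite set of exponents. -/
noncomputable def polyOf {t : ℕ} (S : Finset (Fin t →₀ ℕ)) :
    (S → ℚ) →ₗ[ℚ] MvPolynomial (Fin t) ℚ :=
  ∑ x : S, (MvPolynomial.monomial (x : Fin t →₀ ℕ)) ∘ₗ (LinearMap.proj x)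

lemma coeff_polyOf {t : ℕ} (S : Finset (Fin t →₀ ℕ)) (c : S → ℚ) (x : Fin t →₀ ℕ) :
    MvPolynomial.coeff x (polyOf S c) = if h : x ∈ S then c ⟨x, h⟩ else 0 := by
  classical
  simp only [polyOf, LinearMap.sum_apply, LinearMap.comp_apply, LinearMap.proj_apply,
    MvPolynomial.coeff_sum, MvPolynomial.coeff_monomial]
  split_ifs with h
  · rw [Finset.sum_eq_single (⟨x, h⟩ : S)]
    · simp
    · intro b _ hb
      rw [if_neg]
      intro h'
      exact hb (Subtype.ext h')
    · intro h'
      exact absurd (Finset.mem_univ _) h'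
  · apply Finset.sum_eq_zero
    intro b _
    rw [if_neg]
    intro h'
    exact h (h' ▸ b.2)

lemma polyOf_ne_zero {t : ℕ} (S : Finset (Fin t →₀ ℕ)) (c : S → ℚ) (hc : c ≠ 0) :
    polyOf S c ≠ 0 := by
  intro h
  apply hc
  ext x
  have := coeff_polyOf S c (x : Fin t →₀ ℕ)
  rw [h, dif_pos x.2] at this
  simpa using this.symm

lemma totalDegree_polyOf_le {t n : ℕ} (c : expSet t (n + 1) → ℚ) :
    (polyOf (expSet t (n + 1)) c).totalDegree ≤ n := by
  classical
  rw [MvPolynomial.totalDegree]
  apply Finset.sup_le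
  intro x hx
  rw [MvPolynomial.mem_support_iff, coeff_polyOf] at hx
  split_ifs at hx with h
  · rw [mem_expSet] at h
    have : (x.sum fun _ e => e) = degree x := by
      rw [Finsupp.degree_eq_sum, Finsupp.sum_fintype _ _ (by simp)]
    omega
  · exact absurd rfl hx

/-- **Counting lemma.** For a nonzero power series `f` and any `L` there is a nonzero polynomial of
degree at most `d` congruent to a multiple of `f` modulo terms of degree `≥ L (d + 1)`. -/
theorem exists_poly_sub_mul (t : ℕ) (f : MvPowerSeries (Fin t) ℚ) (hf : f ≠ 0) (L : ℕ) :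
    ∃ (d : ℕ) (p : MvPolynomial (Fin t) ℚ) (g : MvPowerSeries (Fin t) ℚ), p ≠ 0 ∧
      p.totalDegree ≤ d ∧
      ((L * (d + 1) : ℕ) : ℕ∞) ≤ ((p : MvPowerSeries (Fin t) ℚ) - f * g).order := by
  classical
  rcases t with _ | s
  · -- no variables: a nonzero series is a nonzero constant
    refine ⟨0, 1, C (coeff 0 f)⁻¹, one_ne_zero, by simp, ?_⟩
    have h0 : coeff 0 f ≠ 0 := by
      intro h
      apply hf
      ext x
      have : x = 0 := Subsingleton.elim _ _
      rw [this, h]
      simp
    have : ((1 : MvPolynomial (Fin 0) ℚ) : MvPowerSeries (Fin 0) ℚ) - f * C (coeff 0 f)⁻¹ = 0 := by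
      ext x
      have : x = 0 := Subsingleton.elim _ _
      rw [this, map_sub, coeff_mul_C, mul_inv_cancel₀ h0]
      simp
    rw [this]
    simp
  · obtain ⟨o, ho⟩ : ∃ o : ℕ, f.order = o := ⟨f.order.toNat, by
      rw [(ne_zero_iff_order_finite).mp hf]⟩
    obtain ⟨d, hd⟩ := exists_card_lt s o L
    set M := L * (d + 1) with hM
    let S1 := expSet (s + 1) (d + 1)
    let S2 := expSet (s + 1) (M - o)
    let S3 := expSet (s + 1) M
    let Φ : ((S1 → ℚ) × (S2 → ℚ)) →ₗ[ℚ] (S3 → ℚ) :=
      { toFun := fun c x => coeff (x : Fin (s + 1) →₀ ℕ)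
          (((polyOf S1 c.1 : MvPolynomial (Fin (s + 1)) ℚ) : MvPowerSeries (Fin (s + 1)) ℚ)
            - f * ((polyOf S2 c.2 : MvPolynomial (Fin (s + 1)) ℚ) : MvPowerSeries (Fin (s + 1)) ℚ))
        map_add' := by
          intro a b
          ext x
          simp only [Prod.fst_add, Prod.snd_add, map_add, MvPolynomial.coe_add, map_sub, mul_add,
            Pi.add_apply]
          ring
        map_smul' := by
          intro r a
          ext x
          simp only [Prod.smul_fst, Prod.smul_snd, map_smul, MvPolynomial.coe_smul, map_sub,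
            mul_smul_comm, RingHom.id_apply, Pi.smul_apply, smul_eq_mul]
          ring }
    have hker : LinearMap.ker Φ ≠ ⊥ := by
      apply LinearMap.ker_ne_bot_of_finrank_lt
      simp only [Module.finrank_prod, Module.finrank_fintype_fun_eq_card, Fintype.card_coe]
      exact hd
    obtain ⟨c, hc, hc0⟩ := (Submodule.ne_bot_iff _).mp hker
    have hcoeff : ∀ x : Fin (s + 1) →₀ ℕ, degree x < M →
        coeff x (((polyOf S1 c.1 : MvPolynomial (Fin (s + 1)) ℚ) : MvPowerSeries (Fin (s + 1)) ℚ)
            - f * ((polyOf S2 c.2 : MvPolynomial (Fin (s + 1)) ℚ) :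
              MvPowerSeries (Fin (s + 1)) ℚ)) = 0 := by
      intro x hx
      have h := LinearMap.mem_ker.mp hc
      exact congrFun h ⟨x, mem_expSet.mpr hx⟩
    have hc1 : c.1 ≠ 0 := by
      intro h1
      have h2 : c.2 ≠ 0 := by
        intro h2
        exact hc0 (Prod.ext h1 h2)
      have h3 := polyOf_ne_zero S2 c.2 h2
      -- order of `f * G` is too small
      set G : MvPowerSeries (Fin (s + 1)) ℚ :=
        ((polyOf S2 c.2 : MvPolynomial (Fin (s + 1)) ℚ) : MvPowerSeries (Fin (s + 1)) ℚ) with hG
      obtain ⟨x, hx⟩ := MvPolynomial.ne_zero_iff.mp h3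
      have hx' : x ∈ S2 := by
        rw [coeff_polyOf] at hx
        split_ifs at hx with h
        · exact h
        · exact absurd rfl hx
      have hGx : coeff x G ≠ 0 := by
        rw [hG, MvPolynomial.coeff_coe]; exact hx
      have hGord : G.order ≤ degree x := order_le hGx
      rw [mem_expSet] at hx'
      have hfG : (M : ℕ∞) ≤ (f * G).order := by
        apply nat_le_order
        intro y hy
        have := hcoeff y hy
        rw [h1, map_zero] at this
        simpa using this
      rw [order_mul, ho] at hfG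
      have : (M : ℕ∞) ≤ ((o + degree x : ℕ) : ℕ∞) := by
        refine hfG.trans ?_
        push_cast
        gcongr
      have : M ≤ o + degree x := by exact_mod_cast this
      omega
    refine ⟨d, polyOf S1 c.1, _, polyOf_ne_zero S1 c.1 hc1, totalDegree_polyOf_le c.1,
      nat_le_order hcoeff⟩

end Pool.Agent.FourExp
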