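import Mathlib
import Pool.Agent.FourExp.Count

set_option autoImplicit false

namespace Pool.Agent.FourExp

open MvPowerSeries Finsupp

section order

variable {m : ℕ}

/-- The ideal generated by the variables. -/
noncomputable abbrev varI (m : ℕ) : Ideal (MvPowerSeries (Fin m) ℚ) :=
  Ideal.span (Set.range MvPowerSeries.X)

lemma monomial_mem_pow (x : Fin m →₀ ℕ) (c : ℚ) :
    (monomial x c : MvPowerSeries (Fin m) ℚ) ∈ varI m ^ degree x := by
  rw [monomial_eq', Finsupp.degree_eq_sum, ← Finset.prod_pow_eq_pow_sum,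
    Finsupp.prod_fintype _ _ (fun i => by simp)]
  apply Ideal.mul_mem_left
  apply Ideal.prod_mem_prod
  intro i _
  exact Ideal.pow_mem_pow (Ideal.subset_span (Set.mem_range_self i)) _

/-- canonical degree `n` divisor of an exponent of degree at least `n` -/
lemma exists_divisor (n : ℕ) (x : Fin m →₀ ℕ) (hx : n ≤ degree x) :
    ∃ b : Fin m →₀ ℕ, b ≤ x ∧ degree b = n := by
  induction n with
  | zero => exact ⟨0, by simp, by simp⟩
  | succ n ih =>
    obtain ⟨b, hb, hd⟩ := ih (by omega)
    have hne : b ≠ x := by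
      rintro rfl; omega
    obtain ⟨i, hi⟩ : ∃ i, b i < x i := by
      by_contra hcon
      push Not at hcon
      exact hne (le_antisymm hb (fun i => hcon i))
    refine ⟨b + single i 1, ?_, by simp [hd]⟩
    intro j
    by_cases hj : i = j
    · subst hj; simp; omega
    · simp [hj]; exact hb j

open Classical in
lemma mem_pow_of_coeff (n : ℕ) (f : MvPowerSeries (Fin m) ℚ)
    (hf : ∀ x : Fin m →₀ ℕ, degree x < n → coeff x f = 0) : f ∈ varI m ^ n := by
  let dv : (Fin m →₀ ℕ) → (Fin m →₀ ℕ) := fun x =>
    if h : n ≤ degree x then (exists_divisor n x h).choose else 0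
  let g : (Fin m →₀ ℕ) → MvPowerSeries (Fin m) ℚ := fun b => fun y =>
    if dv (y + b) = b then coeff (y + b) f else 0
  have hfin : {b : Fin m →₀ ℕ | degree b = n}.Finite :=
    (finite_of_degree_le (σ := Fin m) n).subset (fun b hb => le_of_eq hb)
  have hsum : f = ∑ b ∈ hfin.toFinset, monomial b (1:ℚ) * g b := by
    ext x
    rw [map_sum]
    by_cases hx : degree x < n
    · rw [hf x hx]
      symm
      apply Finset.sum_eq_zero
      intro b hb
      rw [coeff_monomial_mul, if_neg]
      intro hbx
      have := degree_mono hbx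
      simp at hb
      omega
    · push Not at hx
      have h1 : dv x = (exists_divisor n x hx).choose := by simp [dv, hx]
      have h2 := (exists_divisor n x hx).choose_spec
      rw [← h1] at h2
      rw [Finset.sum_eq_single (dv x)]
      · rw [coeff_monomial_mul, if_pos h2.1, one_mul]
        change _ = if dv (x - dv x + dv x) = dv x then coeff (x - dv x + dv x) f else 0
        rw [tsub_add_cancel_of_le h2.1, if_pos rfl]
      · intro b hb hne
        rw [coeff_monomial_mul]
        split_ifs with hbx
        · change (1:ℚ) * (if dv (x - b + b) = b then coeff (x - b + b) f else 0) = 0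
          rw [tsub_add_cancel_of_le hbx, if_neg (fun h => hne h.symm), mul_zero]
        · rfl
      · intro hnot
        exact absurd (by simpa using h2.2) hnot
  rw [hsum]
  apply Ideal.sum_mem
  intro b hb
  apply Ideal.mul_mem_right
  have : degree b = n := by simpa using hb
  rw [← this]
  exact monomial_mem_pow b 1

/-- finite powers of a precomplete ring are precomplete -/
lemma isPrecomplete_pi {A : Type*} [CommRing A] (I : Ideal A) [IsPrecomplete I A]
    (ι : Type*) [Fintype ι] [DecidableEq ι] : IsPrecomplete I (ι → A) := by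
  constructor
  intro f hf
  have h1 : ∀ i, ∃ L : A, ∀ n, f n i ≡ L [SMOD (I ^ n • ⊤ : Submodule A A)] := by
    intro i
    apply IsPrecomplete.prec' (I := I) (M := A) (fun n => f n i)
    intro m n hmn
    have h2 := hf hmn
    have h3 := SModEq.map h2 (LinearMap.proj i : (ι → A) →ₗ[A] A)
    refine SModEq.mono ?_ h3
    rw [Submodule.map_smul'']
    exact Submodule.smul_mono le_rfl le_top
  choose L hL using h1
  refine ⟨L, fun n => ?_⟩
  rw [SModEq.sub_mem]
  have h4 : f n - L = ∑ i, (f n i - L i) • (Pi.single i (1:A) : ι → A) := by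
    ext j
    simp [Finset.sum_apply, Pi.single_apply]
  rw [h4]
  apply Submodule.sum_mem
  intro i _
  have h5 := hL i n
  rw [SModEq.sub_mem] at h5
  apply Submodule.smul_mem_smul _ Submodule.mem_top
  simpa using h5

end order

section fin

variable {t m : ℕ} (φ : MvPowerSeries (Fin t) ℚ →ₐ[ℚ] MvPowerSeries (Fin m) ℚ)

lemma map_mem_varI (hX : ∀ j, constantCoeff (φ (X j)) = 0) (n : ℕ)
    (s : MvPowerSeries (Fin t) ℚ) (hs : s ∈ varI t ^ n) : φ s ∈ varI m ^ n := by
  have h1 : varI t ≤ (varI m).comap φ.toRingHom := by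
    rw [Ideal.span_le]
    rintro _ ⟨j, rfl⟩
    have := mem_pow_of_coeff 1 (φ (X j)) (by
      intro x hx
      have : x = 0 := by
        rw [← Finsupp.degree_eq_zero_iff]; omega
      subst this
      exact hX j)
    rw [pow_one] at this
    exact this
  have h2 : varI t ^ n ≤ (varI m ^ n).comap φ.toRingHom :=
    (Ideal.pow_right_mono h1 n).trans (Ideal.le_comap_pow _ n)
  exact h2 hs

theorem exists_generation (B : Type*) [CommRing B] [Algebra (MvPowerSeries (Fin m) ℚ) B]
    [Algebra (MvPowerSeries (Fin t) ℚ) B]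
    (hφ : ∀ s, algebraMap (MvPowerSeries (Fin t) ℚ) B s =
      algebraMap (MvPowerSeries (Fin m) ℚ) B (φ s))
    (hsurj : Function.Surjective (algebraMap (MvPowerSeries (Fin m) ℚ) B))
    (hX : ∀ j, constantCoeff (φ (X j)) = 0)
    (n : ℕ) (hn : ∀ F ∈ varI m ^ n, ∃ b : Fin t → B,
      algebraMap (MvPowerSeries (Fin m) ℚ) B F = ∑ j, algebraMap (MvPowerSeries (Fin t) ℚ) B (X j) * b j)
    (hH : IsHausdorff (varI m) B) :
    ∀ y : B, ∃ s : expSet m n → MvPowerSeries (Fin t) ℚ,
      y = ∑ x : expSet m n, algebraMap (MvPowerSeries (Fin t) ℚ) B (s x) *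
        algebraMap (MvPowerSeries (Fin m) ℚ) B (monomial (x : Fin m →₀ ℕ) (1:ℚ)) := by
  classical
  have : IsPrecomplete (varI t) (expSet m n → MvPowerSeries (Fin t) ℚ) :=
    isPrecomplete_pi _ _
  have hH' : IsHausdorff (varI t) B := by
    constructor
    intro x hx
    apply hH.haus
    intro k
    have h1 := hx k
    rw [SModEq.zero] at h1 ⊢
    refine Submodule.smul_induction_on h1 ?_ ?_
    · intro r hr y _
      have h2 : r • y = (φ r) • y := by
        rw [Algebra.smul_def r y, hφ, Algebra.smul_def (φ r) y]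
      rw [h2]
      exact Submodule.smul_mem_smul (map_mem_varI φ hX k r hr) Submodule.mem_top
    · intro x y hx hy
      exact Submodule.add_mem _ hx hy
  let v : expSet m n → B := fun x =>
    algebraMap (MvPowerSeries (Fin m) ℚ) B (monomial (x : Fin m →₀ ℕ) (1:ℚ))
  let f := Fintype.linearCombination (MvPowerSeries (Fin t) ℚ) v
  have hf : Function.Surjective f := by
    apply surjective_of_mkQ_comp_surjective (I := varI t)
    intro y'
    obtain ⟨y, rfl⟩ := Submodule.mkQ_surjective _ y'
    obtain ⟨F, rfl⟩ := hsurj y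
    refine ⟨fun x => C (coeff (x : Fin m →₀ ℕ) F), ?_⟩
    rw [LinearMap.comp_apply, ← sub_eq_zero, ← map_sub, Submodule.mkQ_apply,
      Submodule.Quotient.mk_eq_zero]
    have h1 : f (fun x => C (coeff (x : Fin m →₀ ℕ) F)) =
        algebraMap (MvPowerSeries (Fin m) ℚ) B
          (∑ x : expSet m n, C (coeff (x : Fin m →₀ ℕ) F) * monomial (x : Fin m →₀ ℕ) (1:ℚ)) := by
      simp only [f, Fintype.linearCombination_apply, v, map_sum, map_mul]
      apply Finset.sum_congr rfl
      intro x _
      rw [Algebra.smul_def, hφ]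
      congr 2
      have := φ.commutes (coeff (x : Fin m →₀ ℕ) F)
      rw [MvPowerSeries.algebraMap_apply, MvPowerSeries.algebraMap_apply] at this
      simpa using this
    rw [h1, ← map_sub]
    obtain ⟨b, hb⟩ := hn ((∑ x : expSet m n, C (coeff (x : Fin m →₀ ℕ) F) *
      monomial (x : Fin m →₀ ℕ) (1:ℚ)) - F) (by
      apply mem_pow_of_coeff
      intro x hx
      rw [map_sub, map_sum, sub_eq_zero]
      rw [Finset.sum_eq_single (⟨x, mem_expSet.mpr hx⟩ : expSet m n)]
      · rw [coeff_C_mul, coeff_monomial_same, mul_one]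
      · intro y _ hy
        rw [coeff_C_mul, coeff_monomial_ne, mul_zero]
        intro h
        exact hy (Subtype.ext h.symm)
      · intro h
        exact absurd (Finset.mem_univ _) h)
    rw [hb]
    apply Submodule.sum_mem
    intro j _
    rw [← Algebra.smul_def]
    exact Submodule.smul_mem_smul (Ideal.subset_span (Set.mem_range_self j)) Submodule.mem_top
  intro y
  obtain ⟨s, hs⟩ := hf y
  refine ⟨s, ?_⟩
  rw [← hs]
  simp only [f, Fintype.linearCombination_apply, v, Algebra.smul_def]

end fin

end Pool.Agent.FourExp
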