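import Mathlib
import Pool.Agent.FourExp.PS

set_option autoImplicit false

namespace Pool.Agent.FourExp

open MvPowerSeries Finsupp

/-- Noether normalization with base point `0`. -/
lemma exists_normalization {m : ℕ} (𝔭 : Ideal (MvPolynomial (Fin m) ℚ)) (h𝔭 : 𝔭 ≠ ⊤) :
    ∃ (t : ℕ) (Y : Fin t → MvPolynomial (Fin m) ℚ),
      (∀ j, MvPolynomial.constantCoeff (Y j) = 0) ∧
      (∀ p : MvPolynomial (Fin t) ℚ, MvPolynomial.aeval Y p ∈ 𝔭 → p = 0) ∧
      (∀ i, ∃ F : Polynomial (MvPolynomial (Fin t) ℚ), F.Monic ∧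
        Polynomial.eval₂ (MvPolynomial.aeval Y : MvPolynomial (Fin t) ℚ →ₐ[ℚ] _).toRingHom
          (MvPolynomial.X i) F ∈ 𝔭) := by
  obtain ⟨t, _, g, ginj, gint⟩ := exists_integral_inj_algHom_of_quotient 𝔭 h𝔭
  have h1 : ∀ j, ∃ y, Ideal.Quotient.mk 𝔭 y = g (MvPolynomial.X j) := fun j =>
    Ideal.Quotient.mk_surjective _
  choose Y' hY' using h1
  let c : Fin t → ℚ := fun j => MvPolynomial.constantCoeff (Y' j)
  let Y : Fin t → MvPolynomial (Fin m) ℚ := fun j => Y' j - MvPolynomial.C (c j)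
  let τ : MvPolynomial (Fin t) ℚ →ₐ[ℚ] MvPolynomial (Fin t) ℚ :=
    MvPolynomial.aeval (fun j => MvPolynomial.X j - MvPolynomial.C (c j))
  let τ' : MvPolynomial (Fin t) ℚ →ₐ[ℚ] MvPolynomial (Fin t) ℚ :=
    MvPolynomial.aeval (fun j => MvPolynomial.X j + MvPolynomial.C (c j))
  have hC : ∀ (r : ℚ), (MvPolynomial.C r : MvPolynomial (Fin t) ℚ) =
      algebraMap ℚ (MvPolynomial (Fin t) ℚ) r := fun r => rfl
  have hC' : ∀ (r : ℚ), (MvPolynomial.C r : MvPolynomial (Fin m) ℚ) =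
      algebraMap ℚ (MvPolynomial (Fin m) ℚ) r := fun r => rfl
  have h2 : τ'.comp τ = AlgHom.id ℚ _ := by
    apply MvPolynomial.algHom_ext
    intro j
    simp only [τ, τ', AlgHom.comp_apply, MvPolynomial.aeval_X, map_sub, hC, AlgHom.commutes,
      AlgHom.id_apply]
    ring
  have h2' : τ.comp τ' = AlgHom.id ℚ _ := by
    apply MvPolynomial.algHom_ext
    intro j
    simp only [τ, τ', AlgHom.comp_apply, MvPolynomial.aeval_X, map_add, hC, AlgHom.commutes,
      AlgHom.id_apply]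
    ring
  have h3 : (Ideal.Quotient.mkₐ ℚ 𝔭).comp (MvPolynomial.aeval Y) = g.comp τ := by
    apply MvPolynomial.algHom_ext
    intro j
    simp only [AlgHom.comp_apply, MvPolynomial.aeval_X, τ, map_sub, Y, hC, hC', AlgHom.commutes]
    rw [Ideal.Quotient.mkₐ_eq_mk, hY']
  refine ⟨t, Y, ?_, ?_, ?_⟩
  · intro j
    simp [Y, c]
  · intro p hp
    have h4 : (Ideal.Quotient.mkₐ ℚ 𝔭).comp (MvPolynomial.aeval Y) p = 0 := by
      rw [AlgHom.comp_apply, Ideal.Quotient.mkₐ_eq_mk]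
      exact Ideal.Quotient.eq_zero_iff_mem.mpr hp
    rw [h3, AlgHom.comp_apply, map_eq_zero_iff _ ginj] at h4
    have h5 : τ'.comp τ p = p := by rw [h2]; rfl
    rw [← h5, AlgHom.comp_apply, h4, map_zero]
  · intro i
    obtain ⟨F, hF, hF0⟩ := gint (Ideal.Quotient.mk 𝔭 (MvPolynomial.X i))
    refine ⟨F.map τ'.toRingHom, hF.map _, ?_⟩
    rw [← Ideal.Quotient.eq_zero_iff_mem, Polynomial.hom_eval₂, Polynomial.eval₂_map]
    have h6 : ((Ideal.Quotient.mk 𝔭).comp (MvPolynomial.aeval Y :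
        MvPolynomial (Fin t) ℚ →ₐ[ℚ] _).toRingHom).comp τ'.toRingHom = (g : _ →+* _) := by
      have h7 : ((Ideal.Quotient.mkₐ ℚ 𝔭).comp (MvPolynomial.aeval Y)).comp τ' = g := by
        rw [h3, AlgHom.comp_assoc, h2', AlgHom.comp_id]
      ext x
      · simp
        rfl
      · have := congrArg (fun f => f (MvPolynomial.X x)) h7
        exact this
    rw [h6]
    exact hF0

lemma exists_pow_le {m t : ℕ} (q : Ideal (MvPowerSeries (Fin m) ℚ))
    (Y : Fin t → MvPolynomial (Fin m) ℚ)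
    (hF : ∀ i, ∃ F : Polynomial (MvPolynomial (Fin t) ℚ), F.Monic ∧
        ((Polynomial.eval₂ (MvPolynomial.aeval Y : MvPolynomial (Fin t) ℚ →ₐ[ℚ] _).toRingHom
          (MvPolynomial.X i) F : MvPolynomial (Fin m) ℚ) : MvPowerSeries (Fin m) ℚ) ∈ q) :
    ∃ n : ℕ, varI m ^ n ≤ q ⊔ Ideal.span (Set.range fun j => (Y j : MvPowerSeries (Fin m) ℚ)) := by
  set J := q ⊔ Ideal.span (Set.range fun j => (Y j : MvPowerSeries (Fin m) ℚ)) with hJ
  apply Ideal.exists_pow_le_of_le_radical_of_fg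
  · rw [Ideal.span_le]
    rintro _ ⟨i, rfl⟩
    obtain ⟨F, hmon, hFq⟩ := hF i
    let coe : MvPolynomial (Fin m) ℚ →+* MvPowerSeries (Fin m) ℚ :=
      MvPolynomial.coeToMvPowerSeries.ringHom
    let ψ : MvPolynomial (Fin t) ℚ →+* MvPowerSeries (Fin m) ℚ :=
      coe.comp (MvPolynomial.aeval Y : MvPolynomial (Fin t) ℚ →ₐ[ℚ] _).toRingHom
    have h1 : (Ideal.Quotient.mk J).comp ψ =
        ((Ideal.Quotient.mk J).comp (C : ℚ →+* MvPowerSeries (Fin m) ℚ)).comp
          MvPolynomial.constantCoeff := by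
      apply MvPolynomial.ringHom_ext
      · intro r
        simp [ψ, coe]
      · intro j
        simp only [ψ, coe, RingHom.comp_apply, MvPolynomial.constantCoeff_X, map_zero]
        rw [Ideal.Quotient.eq_zero_iff_mem]
        apply Ideal.mem_sup_right
        apply Ideal.subset_span
        refine ⟨j, ?_⟩
        simp
    have h2 : Polynomial.eval₂ ψ (X i) F ∈ J := by
      apply Ideal.mem_sup_left
      have h3 : Polynomial.eval₂ ψ (X i) F = coe (Polynomial.eval₂ (MvPolynomial.aeval Y :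
          MvPolynomial (Fin t) ℚ →ₐ[ℚ] _).toRingHom (MvPolynomial.X i) F) := by
        rw [Polynomial.hom_eval₂]
        simp [ψ, coe]
      rw [h3]
      exact hFq
    set G := F.map (MvPolynomial.constantCoeff : MvPolynomial (Fin t) ℚ →+* ℚ) with hG
    have h4 : Polynomial.eval₂ (C : ℚ →+* MvPowerSeries (Fin m) ℚ) (X i) G ∈ J := by
      rw [← Ideal.Quotient.eq_zero_iff_mem, Polynomial.hom_eval₂, hG, Polynomial.eval₂_map, ← h1,
        ← Polynomial.hom_eval₂, Ideal.Quotient.eq_zero_iff_mem]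
      exact h2
    have hG0 : G ≠ 0 := (hmon.map _).ne_zero
    obtain ⟨H, hH1, hH2⟩ := Polynomial.exists_eq_pow_rootMultiplicity_mul_and_not_dvd G hG0 0
    rw [Polynomial.C_0, sub_zero] at hH1 hH2
    rw [hH1, Polynomial.eval₂_mul, Polynomial.eval₂_pow, Polynomial.eval₂_X] at h4
    refine ⟨Polynomial.rootMultiplicity 0 G, ?_⟩
    have hu : IsUnit (Polynomial.eval₂ (C : ℚ →+* MvPowerSeries (Fin m) ℚ) (X i) H) := by
      rw [MvPowerSeries.isUnit_iff_constantCoeff, Polynomial.hom_eval₂, isUnit_iff_ne_zero]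
      simp only [constantCoeff_X]
      rw [Polynomial.eval₂_at_zero]
      rw [Polynomial.X_dvd_iff] at hH2
      simpa using hH2
    exact (Ideal.mul_unit_mem_iff_mem J hu).mp h4
  · classical
    exact ⟨Finset.univ.image X, by simp⟩

end Pool.Agent.FourExp
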