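import Mathlib
import Pool.Agent.FourExp.Norm

set_option autoImplicit false

namespace Pool.Agent.FourExp

open MvPowerSeries Finsupp

/-- A polynomial which is close to the ideal `q` relative to its degree lies in `q`. -/
def Rigid {m : ℕ} (q : Ideal (MvPowerSeries (Fin m) ℚ)) : Prop :=
  ∃ Λ : ℕ, ∀ (p : MvPolynomial (Fin m) ℚ) (d : ℕ) (f : MvPowerSeries (Fin m) ℚ),
    p.totalDegree ≤ d → f ∈ q →
    ((Λ * (d + 1) : ℕ) : ℕ∞) ≤ ((p : MvPowerSeries (Fin m) ℚ) - f).order →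
    (p : MvPowerSeries (Fin m) ℚ) ∈ q

lemma totalDegree_aeval_le {t m : ℕ} (Y : Fin t → MvPolynomial (Fin m) ℚ) (D : ℕ)
    (hY : ∀ j, (Y j).totalDegree ≤ D) (p : MvPolynomial (Fin t) ℚ) :
    (MvPolynomial.aeval Y p).totalDegree ≤ D * p.totalDegree := by
  rw [MvPolynomial.aeval_def, MvPolynomial.eval₂_eq']
  apply MvPolynomial.totalDegree_finsetSum_le
  intro x hx
  refine (MvPolynomial.totalDegree_mul _ _).trans ?_
  have h1 : (algebraMap ℚ (MvPolynomial (Fin m) ℚ) (MvPolynomial.coeff x p)).totalDegree = 0 :=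
    MvPolynomial.totalDegree_C _
  rw [h1, zero_add]
  refine (MvPolynomial.totalDegree_finsetProd _ _).trans ?_
  have h2 : ∑ i, x i ≤ p.totalDegree := by
    have := MvPolynomial.le_totalDegree hx
    rw [Finsupp.sum_fintype _ _ (fun _ => rfl)] at this
    exact this
  calc ∑ i, (Y i ^ x i).totalDegree ≤ ∑ i, x i * D :=
        Finset.sum_le_sum (fun i _ => (MvPolynomial.totalDegree_pow _ _).trans
          (Nat.mul_le_mul_left _ (hY i)))
    _ = D * ∑ i, x i := by rw [← Finset.sum_mul, mul_comm]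
    _ ≤ D * p.totalDegree := Nat.mul_le_mul_left _ h2

lemma hasSubst_of {t m : ℕ} (Y : Fin t → MvPolynomial (Fin m) ℚ)
    (hY0 : ∀ j, MvPolynomial.constantCoeff (Y j) = 0) :
    HasSubst (fun j => (Y j : MvPowerSeries (Fin m) ℚ)) := by
  apply hasSubst_of_constantCoeff_zero
  intro j
  have := hY0 j
  rw [MvPolynomial.constantCoeff_eq] at this
  rw [← coeff_zero_eq_constantCoeff_apply, MvPolynomial.coeff_coe]
  exact this

theorem subst_inj {t m : ℕ} (q : Ideal (MvPowerSeries (Fin m) ℚ)) (hq : Rigid q)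
    (Y : Fin t → MvPolynomial (Fin m) ℚ)
    (hY0 : ∀ j, MvPolynomial.constantCoeff (Y j) = 0)
    (hYi : ∀ p : MvPolynomial (Fin t) ℚ,
      ((MvPolynomial.aeval Y p : MvPolynomial (Fin m) ℚ) : MvPowerSeries (Fin m) ℚ) ∈ q → p = 0)
    (f : MvPowerSeries (Fin t) ℚ)
    (hf : substAlgHom (R := ℚ) (hasSubst_of Y hY0) f ∈ q) : f = 0 := by
  by_contra hf0
  obtain ⟨Λ, hΛ⟩ := hq
  obtain ⟨D, hD⟩ : ∃ D, ∀ j, (Y j).totalDegree ≤ D :=
    ⟨∑ j, (Y j).totalDegree, fun j =>
      Finset.single_le_sum (f := fun j => (Y j).totalDegree) (fun _ _ => Nat.zero_le _)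
        (Finset.mem_univ j)⟩
  obtain ⟨d, p, g, hp0, hpd, hord⟩ := exists_poly_sub_mul t f hf0 (Λ * (D + 1))
  apply hp0
  apply hYi
  set φ := substAlgHom (R := ℚ) (hasSubst_of Y hY0) with hφ
  have h1 : φ (p : MvPowerSeries (Fin t) ℚ) =
      ((MvPolynomial.aeval Y p : MvPolynomial (Fin m) ℚ) : MvPowerSeries (Fin m) ℚ) := by
    rw [hφ, substAlgHom_coe]
    have : (MvPolynomial.aeval fun j => (Y j : MvPowerSeries (Fin m) ℚ)) =
        (MvPolynomial.coeToMvPowerSeries.algHom ℚ).comp (MvPolynomial.aeval Y) := by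
      apply MvPolynomial.algHom_ext
      intro j
      simp
    rw [this]
    simp
  apply hΛ _ (D * d) (φ f * φ g)
  · exact (totalDegree_aeval_le Y D hD p).trans (Nat.mul_le_mul_left _ hpd)
  · exact Ideal.mul_mem_right _ _ hf
  · rw [← h1, ← map_mul, ← map_sub, hφ, substAlgHom_apply]
    refine le_trans ?_ (le_order_subst (hasSubst_of Y hY0) _)
    have h2 : (1 : ℕ∞) ≤ ⨅ j, ((Y j : MvPowerSeries (Fin m) ℚ)).order := by
      apply le_iInf
      intro j
      rw [one_le_order_iff_constCoeff_eq_zero]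
      have := hY0 j
      rw [MvPolynomial.constantCoeff_eq] at this
      rw [← coeff_zero_eq_constantCoeff_apply, MvPolynomial.coeff_coe]
      exact this
    calc ((Λ * (D * d + 1) : ℕ) : ℕ∞) ≤ ((Λ * (D + 1) * (d + 1) : ℕ) : ℕ∞) := by
          norm_cast
          nlinarith [Nat.zero_le (Λ * D), Nat.zero_le (Λ * d)]
      _ ≤ ((p : MvPowerSeries (Fin t) ℚ) - f * g).order := hord
      _ = 1 * ((p : MvPowerSeries (Fin t) ℚ) - f * g).order := (one_mul _).symm
      _ ≤ _ := mul_le_mul_left h2 _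

end Pool.Agent.FourExp
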