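import Mathlib

set_option autoImplicit false

namespace Pool.Agent.FourExp

open TensorProduct KaehlerDifferential

/-- Derivations extend along formally étale algebras. -/
lemma exists_deriv_of_formallyEtale (R S T : Type*) [CommRing R] [CommRing S] [CommRing T]
    [Algebra R S] [Algebra R T] [Algebra S T] [IsScalarTower R S T] [Algebra.FormallyEtale S T]
    (d : Derivation R S T) :
    ∃ δ : Derivation R T T, ∀ s : S, δ (algebraMap S T s) = d s := by
  let φ : Ω[S⁄R] →ₗ[S] T := d.liftKaehlerDifferential
  let ψ : Ω[T⁄R] →ₗ[T] T :=
    (LinearMap.liftBaseChange T φ) ∘ₗ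
      (tensorKaehlerEquivOfFormallyEtale R S T).symm.toLinearMap
  refine ⟨ψ.compDer (D R T), fun s => ?_⟩
  change ψ (D R T (algebraMap S T s)) = d s
  simp only [ψ, LinearMap.comp_apply, LinearEquiv.coe_coe]
  rw [tensorKaehlerEquivOfFormallyEtale_symm_D_algebraMap]
  simp [φ]

/-- A derivation of a field killing a subfield over which it is algebraic is zero. -/
lemma deriv_eq_zero_of_isAlgebraic {E K : Type*} [Field E] [Field K] [CharZero E] [Algebra E K]
    (x : K) (hx : IsAlgebraic E x) {M : Type*} [AddCommGroup M] [Module K M]
    {R : Type*} [CommRing R] [Algebra R K] [Module R M]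
    (δ : Derivation R K M) (h : ∀ e : E, δ (algebraMap E K e) = 0) : δ x = 0 := by
  classical
  -- the derivative of a polynomial expression
  have key : ∀ p : Polynomial E, δ (Polynomial.aeval x p) =
      (Polynomial.aeval x (Polynomial.derivative p)) • δ x := by
    intro p
    induction p using Polynomial.induction_on' with
    | add p q hp hq => rw [map_add, map_add, hp, hq, map_add, map_add, add_smul]
    | monomial n a =>
      rw [Polynomial.aeval_monomial, Polynomial.derivative_monomial, Polynomial.aeval_monomial,
        Derivation.leibniz, h, smul_zero, add_zero, Derivation.leibniz_pow]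
      rw [← Nat.cast_smul_eq_nsmul K, smul_smul, smul_smul, map_mul, map_natCast, mul_assoc]
  have hint : IsIntegral E x := hx.isIntegral
  have h0 : (Polynomial.aeval x (Polynomial.derivative (minpoly E x))) • δ x = 0 := by
    rw [← key, minpoly.aeval, map_zero]
  have hsep : Polynomial.aeval x (Polynomial.derivative (minpoly E x)) ≠ 0 := by
    intro h'
    have hdvd := minpoly.dvd E x h'
    have hne : Polynomial.derivative (minpoly E x) ≠ 0 := by
      intro h''
      have := Polynomial.derivative_eq_zero.mp h''
      have hpos := minpoly.natDegree_pos hint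
      omega
    have hle := Polynomial.natDegree_le_of_dvd hdvd hne
    have hlt := Polynomial.natDegree_derivative_lt (p := minpoly E x)
      (by have hpos := minpoly.natDegree_pos hint; omega)
    omega
  exact (smul_eq_zero.mp h0).resolve_left hsep

open scoped IntermediateField.algebraAdjoinAdjoin in
/-- In characteristic zero, an element transcendental over a subfield is not killed by all
derivations over that subfield. -/
lemma exists_deriv_ne_zero {F K : Type*} [Field F] [Field K] [Algebra F K] [CharZero F]
    (x : K) (hx : Transcendental F x) : ∃ δ : Derivation F K K, δ x ≠ 0 := by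
  classical
  have hind : AlgebraicIndepOn F id ({x} : Set K) := by
    rw [AlgebraicIndepOn]
    have : AlgebraicIndependent F (fun i : ({x} : Set K) => (i : K)) := by
      rw [algebraicIndependent_unique_type_iff]
      exact hx
    exact this
  obtain ⟨t, hst, ht⟩ := exists_isTranscendenceBasis_superset hind
  have hxt : x ∈ t := hst rfl
  let v : t → K := Subtype.val
  have hv : AlgebraicIndependent F v := ht.1
  let S := Algebra.adjoin F (Set.range v)
  let E := IntermediateField.adjoin F (Set.range v)
  have hchar : CharZero E := charZero_of_injective_algebraMap (algebraMap F E).injective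
  have halg : Algebra.IsAlgebraic E K := by
    have := ht.isAlgebraic_field
    exact this
  have hsepEK : Algebra.IsSeparable E K := inferInstance
  have h1 : Algebra.FormallyEtale S E := Algebra.FormallyEtale.of_isLocalization (nonZeroDivisors S)
  have h2 : Algebra.FormallyEtale E K := Algebra.FormallyEtale.of_isSeparable E K
  have h3 : Algebra.FormallyEtale S K := Algebra.FormallyEtale.comp S E K
  let i0 : t := ⟨x, hxt⟩
  let eqv : MvPolynomial t F ≃ₐ[F] S := hv.aevalEquiv
  let d : Derivation F S K :=
    Derivation.mk'
      ((MvPolynomial.aeval v).toLinearMap ∘ₗ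
        (MvPolynomial.pderiv i0 : Derivation F _ _).toLinearMap ∘ₗ eqv.symm.toLinearMap)
      (by
        intro a b
        have hval : ∀ s : S, MvPolynomial.aeval v (eqv.symm s) = (s : K) := by
          intro s
          have := hv.aevalEquiv_apply_coe (eqv.symm s)
          rw [← this]
          congr 1
          exact eqv.apply_symm_apply s
        change MvPolynomial.aeval v (MvPolynomial.pderiv i0 (eqv.symm (a * b))) =
          (a : K) * MvPolynomial.aeval v (MvPolynomial.pderiv i0 (eqv.symm b)) +
          (b : K) * MvPolynomial.aeval v (MvPolynomial.pderiv i0 (eqv.symm a))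
        rw [map_mul, Derivation.leibniz, map_add, smul_eq_mul, smul_eq_mul, map_mul, map_mul,
          hval a, hval b])
  obtain ⟨δ, hδ⟩ := exists_deriv_of_formallyEtale F S K d
  refine ⟨δ, ?_⟩
  have hxS : x = algebraMap S K (eqv (MvPolynomial.X i0)) := by
    have := hv.aevalEquiv_apply_coe (MvPolynomial.X i0)
    rw [MvPolynomial.aeval_X] at this
    exact this.symm
  rw [hxS, hδ]
  simp [d]

end Pool.Agent.FourExp
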