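import Mathlib
import Pool.Agent.FourExp.Deriv

set_option autoImplicit false

namespace Pool.Agent.FourExp

open Polynomial

lemma coeff_mul_derivative_eq_zero (p q : ℚ[X]) (hp : p ≠ 0) :
    (p * derivative q).coeff (p.natDegree + q.natDegree) = 0 := by
  by_cases h : derivative q = 0
  · rw [h]; simp
  · apply coeff_eq_zero_of_natDegree_lt
    have h1 : q.natDegree ≠ 0 := by
      intro h'
      exact h (derivative_eq_zero.mpr h')
    have h2 := natDegree_derivative_lt h1
    rw [natDegree_mul hp h]
    omega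

/-- No nonzero polynomials satisfy `g g₀' = (g' + N g) g₀` for `N ≥ 1`. -/
lemma no_poly_exp (g g0 : ℚ[X]) (N : ℕ) (hN : N ≠ 0) (hg : g ≠ 0) (hg0 : g0 ≠ 0)
    (h : g * derivative g0 - (derivative g + (N : ℚ[X]) * g) * g0 = 0) : False := by
  have h1 := coeff_mul_derivative_eq_zero g g0 hg
  have h2 := coeff_mul_derivative_eq_zero g0 g hg0
  rw [add_comm g0.natDegree] at h2
  have h3 : (g * g0).coeff (g.natDegree + g0.natDegree) ≠ 0 := by
    rw [← natDegree_mul hg hg0]
    exact leadingCoeff_ne_zero.mpr (mul_ne_zero hg hg0)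
  have h4 : ((N : ℚ[X]) * (g * g0)) = g * derivative g0 - g0 * derivative g := by
    linear_combination -h
  have h5 := congrArg (fun p : ℚ[X] => p.coeff (g.natDegree + g0.natDegree)) h4
  simp only [coeff_sub, h1, h2, sub_zero] at h5
  rw [← C_eq_natCast, coeff_C_mul] at h5
  rcases mul_eq_zero.mp h5 with h6 | h6
  · exact hN (by exact_mod_cast h6)
  · exact h3 h6

open scoped IntermediateField.algebraAdjoinAdjoin in
/-- A field over `ℚ` does not contain a nonconstant element together with its exponential, in the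
sense of differential algebra. -/
lemma isAlgebraic_of_deriv_eq {K : Type*} [Field K] [CharZero K] [Algebra ℚ K] (e u : K)
    (hu : u ≠ 0) (h : ∀ δ : Derivation ℚ K K, δ u = u * δ e) : IsAlgebraic ℚ e := by
  classical
  by_contra he
  have he' : Transcendental ℚ e := he
  -- `u` is algebraic over `ℚ(e)`
  let F := IntermediateField.adjoin ℚ ({e} : Set K)
  have hchar : CharZero F := charZero_of_injective_algebraMap (algebraMap ℚ F).injective
  have hualg : IsAlgebraic F u := by
    by_contra hu'
    obtain ⟨δ, hδ⟩ := exists_deriv_ne_zero (F := F) u hu'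
    have h1 := h (δ.restrictScalars ℚ)
    simp only [Derivation.restrictScalars_apply] at h1
    have h2 : δ e = 0 := by
      have : e = algebraMap F K ⟨e, IntermediateField.mem_adjoin_simple_self ℚ e⟩ := rfl
      rw [this, Derivation.map_algebraMap]
    rw [h2, mul_zero] at h1
    exact hδ h1
  -- a nonzero bivariate polynomial vanishing at `(e, u)`
  let φ : ℚ[X] →+* K := (aeval e : ℚ[X] →ₐ[ℚ] K).toRingHom
  have hφinj : Function.Injective φ := transcendental_iff_injective.mp he'
  have hex : ∃ n : ℕ, ∃ G : ℚ[X][X], G ≠ 0 ∧ G.natDegree = n ∧ G.eval₂ φ u = 0 := by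
    let A := Algebra.adjoin ℚ ({e} : Set K)
    have hA : IsAlgebraic A u := by
      have : IsFractionRing A F := inferInstance
      exact (IsFractionRing.isAlgebraic_iff A F K).mpr hualg
    obtain ⟨p, hp0, hp⟩ := hA
    let ψ : ℚ[X] →ₐ[ℚ] A := aeval ⟨e, Algebra.self_mem_adjoin_singleton ℚ e⟩
    have hψ : Function.Surjective ψ := by
      intro a
      have ha : (a : K) ∈ Algebra.adjoin ℚ ({e} : Set K) := a.2
      rw [Algebra.adjoin_singleton_eq_range_aeval] at ha
      obtain ⟨g, hg⟩ := ha
      refine ⟨g, Subtype.ext ?_⟩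
      rw [← hg]
      simp only [ψ]
      exact (Polynomial.aeval_algHom_apply A.val ⟨e, Algebra.self_mem_adjoin_singleton ℚ e⟩ g).symm
    obtain ⟨G, hG⟩ := Polynomial.map_surjective ψ.toRingHom hψ p
    refine ⟨G.natDegree, G, ?_, rfl, ?_⟩
    · rintro rfl
      apply hp0
      rw [← hG]; simp
    · rw [aeval_def, ← hG, eval₂_map] at hp
      have hcomp : (algebraMap A K).comp ψ.toRingHom = φ := by
        apply Polynomial.ringHom_ext
        · intro a; simp [φ, ψ]
        · simp [φ, ψ]
      rw [hcomp] at hp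
      exact hp
  let N := Nat.find hex
  obtain ⟨G, hG0, hGN, hGe⟩ := Nat.find_spec hex
  have hmin : ∀ P : ℚ[X][X], P.eval₂ φ u = 0 → P ≠ 0 → N ≤ P.natDegree := by
    intro P hP hP0
    exact Nat.find_min' hex ⟨P, hP0, rfl, hP⟩
  have hGN' : G.natDegree = N := hGN
  -- N ≥ 1
  have hN : N ≠ 0 := by
    intro h0
    rw [h0] at hGN'
    rw [eq_C_of_natDegree_eq_zero hGN', eval₂_C] at hGe
    have := (injective_iff_map_eq_zero φ).mp hφinj _ hGe
    apply hG0
    rw [eq_C_of_natDegree_eq_zero hGN', this]
    simp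
  -- the constant coefficient is nonzero
  have hg0 : G.coeff 0 ≠ 0 := by
    intro h0
    obtain ⟨G1, hG1⟩ := X_dvd_iff.mpr h0
    have hG10 : G1 ≠ 0 := by
      rintro rfl
      rw [mul_zero] at hG1
      exact hG0 hG1
    have h1 : G1.eval₂ φ u = 0 := by
      rw [hG1, eval₂_mul, eval₂_X] at hGe
      exact (mul_eq_zero.mp hGe).resolve_left hu
    have h2 := hmin G1 h1 hG10
    have h3 : G.natDegree = 1 + G1.natDegree := by
      rw [hG1, natDegree_mul X_ne_zero hG10, natDegree_X]
    omega
  -- the normalised derivation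
  obtain ⟨δ0, hδ0⟩ := exists_deriv_ne_zero (F := ℚ) e he'
  let D : Derivation ℚ K K := (δ0 e)⁻¹ • δ0
  have hDe : D e = 1 := by
    simp only [D, Derivation.smul_apply, smul_eq_mul]
    exact inv_mul_cancel₀ hδ0
  have hDu : D u = u := by
    rw [h D, hDe, mul_one]
  have hDφ : ∀ g : ℚ[X], D (φ g) = φ (derivative g) := by
    intro g
    have := D.map_aeval g e
    rw [hDe, smul_eq_mul, mul_one] at this
    exact this
  have hsum1 : ∑ j ∈ Finset.range (N + 1), φ (G.coeff j) * u ^ j = 0 := by
    rw [← hGe, eval₂_eq_sum_range, hGN']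
  have hsum2 : ∑ j ∈ Finset.range (N + 1),
      φ (derivative (G.coeff j) + (j : ℚ[X]) * G.coeff j) * u ^ j = 0 := by
    have h1 := congrArg D hsum1
    rw [map_sum, map_zero] at h1
    rw [← h1]
    apply Finset.sum_congr rfl
    intro j _
    rw [Derivation.leibniz, Derivation.leibniz_pow, hDφ, hDu, map_add, map_mul, map_natCast]
    simp only [smul_eq_mul, nsmul_eq_mul]
    rcases j with _ | j
    · simp
    · rw [Nat.add_sub_cancel, pow_succ]
      ring
  let P : ℚ[X][X] := ∑ j ∈ Finset.range N,
    monomial j (G.coeff N * (derivative (G.coeff j) + (j : ℚ[X]) * G.coeff j)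
      - (derivative (G.coeff N) + (N : ℚ[X]) * G.coeff N) * G.coeff j)
  have hPcoeff : ∀ j, j < N → P.coeff j =
      G.coeff N * (derivative (G.coeff j) + (j : ℚ[X]) * G.coeff j)
      - (derivative (G.coeff N) + (N : ℚ[X]) * G.coeff N) * G.coeff j := by
    intro j hj
    simp only [P, finsetSum_coeff, coeff_monomial]
    rw [Finset.sum_eq_single j]
    · simp
    · intro b _ hb
      rw [if_neg hb]
    · intro h'
      exact absurd (Finset.mem_range.mpr hj) h'
  have hPeval : P.eval₂ φ u = 0 := by
    have e1 : P.eval₂ φ u = ∑ j ∈ Finset.range N,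
        φ (G.coeff N * (derivative (G.coeff j) + (j : ℚ[X]) * G.coeff j)
      - (derivative (G.coeff N) + (N : ℚ[X]) * G.coeff N) * G.coeff j) * u ^ j := by
      simp only [P, eval₂_finsetSum, eval₂_monomial]
    have e2 : ∑ j ∈ Finset.range N,
        φ (G.coeff N * (derivative (G.coeff j) + (j : ℚ[X]) * G.coeff j)
      - (derivative (G.coeff N) + (N : ℚ[X]) * G.coeff N) * G.coeff j) * u ^ j =
      ∑ j ∈ Finset.range (N + 1),
        φ (G.coeff N * (derivative (G.coeff j) + (j : ℚ[X]) * G.coeff j)
      - (derivative (G.coeff N) + (N : ℚ[X]) * G.coeff N) * G.coeff j) * u ^ j := by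
      rw [Finset.sum_range_succ]
      have : G.coeff N * (derivative (G.coeff N) + (N : ℚ[X]) * G.coeff N)
        - (derivative (G.coeff N) + (N : ℚ[X]) * G.coeff N) * G.coeff N = 0 := by ring
      rw [this]; simp
    rw [e1, e2]
    have e3 : ∑ j ∈ Finset.range (N + 1),
        φ (G.coeff N * (derivative (G.coeff j) + (j : ℚ[X]) * G.coeff j)
      - (derivative (G.coeff N) + (N : ℚ[X]) * G.coeff N) * G.coeff j) * u ^ j =
      φ (G.coeff N) * ∑ j ∈ Finset.range (N + 1),
        φ (derivative (G.coeff j) + (j : ℚ[X]) * G.coeff j) * u ^ j -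
      φ (derivative (G.coeff N) + (N : ℚ[X]) * G.coeff N) *
        ∑ j ∈ Finset.range (N + 1), φ (G.coeff j) * u ^ j := by
      rw [Finset.mul_sum, Finset.mul_sum, ← Finset.sum_sub_distrib]
      apply Finset.sum_congr rfl
      intro j _
      rw [map_sub, map_mul, map_mul]
      ring
    rw [e3, hsum1, hsum2]
    ring
  have hP0 : P = 0 := by
    by_contra hne
    have h1 := hmin P hPeval hne
    have h2 : P.natDegree < N := by
      have : P.natDegree ≤ N - 1 := by
        apply natDegree_sum_le_of_forall_le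
        intro j hj
        have := Finset.mem_range.mp hj
        refine (natDegree_monomial_le _).trans ?_
        omega
      omega
    omega
  have hfin := hPcoeff 0 (Nat.pos_of_ne_zero hN)
  rw [hP0, coeff_zero] at hfin
  have hlead : G.coeff N ≠ 0 := by
    rw [← hGN']
    exact leadingCoeff_ne_zero.mpr hG0
  refine no_poly_exp (G.coeff N) (G.coeff 0) N hN hlead hg0 ?_
  rw [hfin]
  push_cast
  ring

end Pool.Agent.FourExp
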