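import Mathlib
import Pool.Agent.FourExp.Deriv
import Pool.Agent.FourExp.NoExp

set_option autoImplicit false

namespace Pool.Agent.FourExp

section

variable (S T : Type*) [CommRing S] [IsDomain S] [CharZero S] [Field T] [Algebra S T]
  [FaithfulSMul S T] [Algebra.IsAlgebraic S T]

attribute [local instance] FractionRing.liftAlgebra

lemma formallyEtale_of_isAlgebraic : Algebra.FormallyEtale S T := by
  have h1 : Algebra.FormallyEtale S (FractionRing S) :=
    Algebra.FormallyEtale.of_isLocalization (nonZeroDivisors S)
  have h2 : CharZero (FractionRing S) :=
    charZero_of_injective_algebraMap (IsFractionRing.injective S (FractionRing S))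
  have h3 : Algebra.IsAlgebraic (FractionRing S) T := by
    apply (IsFractionRing.comap_isAlgebraic_iff (A := S) (K := FractionRing S) (C := T)).mp
    infer_instance
  have h4 : Algebra.IsSeparable (FractionRing S) T := inferInstance
  have h5 : Algebra.FormallyEtale (FractionRing S) T :=
    Algebra.FormallyEtale.of_isSeparable (FractionRing S) T
  exact Algebra.FormallyEtale.comp S (FractionRing S) T

/-- Derivations of a domain into a field algebraic over it extend. -/
lemma exists_deriv_ext [Algebra ℚ S] [Algebra ℚ T] [IsScalarTower ℚ S T] (d : Derivation ℚ S T) :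
    ∃ δ : Derivation ℚ T T, ∀ s : S, δ (algebraMap S T s) = d s := by
  have := formallyEtale_of_isAlgebraic S T
  exact exists_deriv_of_formallyEtale ℚ S T d

/-- A derivation killing a domain kills every field algebraic over it. -/
lemma deriv_eq_zero_ext {M : Type*} [AddCommGroup M] [Module T M]
    {R : Type*} [CommRing R] [Algebra R T] [Module R M]
    (δ : Derivation R T M) (h : ∀ e : S, δ (algebraMap S T e) = 0) (x : T) : δ x = 0 := by
  have h2 : CharZero (FractionRing S) :=
    charZero_of_injective_algebraMap (IsFractionRing.injective S (FractionRing S))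
  have h3 : Algebra.IsAlgebraic (FractionRing S) T := by
    apply (IsFractionRing.comap_isAlgebraic_iff (A := S) (K := FractionRing S) (C := T)).mp
    infer_instance
  apply deriv_eq_zero_of_isAlgebraic (E := FractionRing S) x (h3.isAlgebraic x)
  intro e
  obtain ⟨a, b, hb, rfl⟩ := IsFractionRing.div_surjective (A := S) e
  have hb0 : algebraMap S T b ≠ 0 := by
    have : b ≠ 0 := nonZeroDivisors.ne_zero hb
    simpa using this
  rw [map_div₀, ← IsScalarTower.algebraMap_apply, ← IsScalarTower.algebraMap_apply]
  have h4 : algebraMap S T a = algebraMap S T b * (algebraMap S T a / algebraMap S T b) := by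
    field_simp
  have h5 : δ (algebraMap S T a) = δ (algebraMap S T b * (algebraMap S T a / algebraMap S T b)) := by
    rw [← h4]
  rw [Derivation.leibniz, h, h, smul_zero, add_zero] at h5
  exact (smul_eq_zero.mp h5.symm).resolve_left hb0

end

end Pool.Agent.FourExp
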