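import Mathlib
import Pool.Agent.FourExp.FieldExt

set_option autoImplicit false

namespace Pool.Agent.FourExp

open MvPowerSeries Finsupp

attribute [-instance] DivisionRing.toRatAlgebra SubfieldClass.instSMulRat

lemma sum_homog {F : Type*} [Field F] [Algebra ℚ F] (μ : Polynomial ℚ) (a b : F) (hb : b ≠ 0) :
    ∑ j ∈ Finset.range (μ.natDegree + 1), algebraMap ℚ F (μ.coeff j) * a ^ j *
      b ^ (μ.natDegree - j) = b ^ μ.natDegree * Polynomial.aeval (a / b) μ := by
  rw [Polynomial.aeval_eq_sum_range, Finset.mul_sum]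
  apply Finset.sum_congr rfl
  intro j hj
  have hj' : j ≤ μ.natDegree := by
    have := Finset.mem_range.mp hj; omega
  rw [Algebra.smul_def, div_pow, pow_sub₀ _ hb hj']
  field_simp

section

variable {L : Type*} [Field L] [Algebra ℚ L] {m : ℕ} (z : Fin m → L)

/-- Rational points force the field of constants to be `ℚ`. -/
lemma rational_of_algebraic
    (hpt : ∀ Q : MvPolynomial (Fin m) ℚ, MvPolynomial.aeval z Q ≠ 0 →
      ∃ e : MvPolynomial (Fin m) ℚ →ₐ[ℚ] ℚ,
        (∀ p : MvPolynomial (Fin m) ℚ, MvPolynomial.aeval z p = 0 → e p = 0) ∧ e Q ≠ 0)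
    (x : L) (hx : x ∈ IntermediateField.adjoin ℚ (Set.range z)) (halg : IsAlgebraic ℚ x) :
    ∃ r : ℚ, x = algebraMap ℚ L r := by
  rw [IntermediateField.mem_adjoin_range_iff] at hx
  obtain ⟨P, Q, hPQ⟩ := hx
  by_cases hQ : MvPolynomial.aeval z Q = 0
  · refine ⟨0, ?_⟩
    rw [hPQ, hQ, div_zero, map_zero]
  · obtain ⟨e, he1, he2⟩ := hpt Q hQ
    set μ := minpoly ℚ x with hμ
    let N : MvPolynomial (Fin m) ℚ := ∑ j ∈ Finset.range (μ.natDegree + 1),
      algebraMap ℚ _ (μ.coeff j) * P ^ j * Q ^ (μ.natDegree - j)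
    have hN : MvPolynomial.aeval z N = 0 := by
      simp only [N, map_sum, map_mul, map_pow, AlgHom.commutes]
      rw [sum_homog μ _ _ hQ, ← hPQ, hμ, minpoly.aeval, mul_zero]
    have hN2 := he1 N hN
    simp only [N, map_sum, map_mul, map_pow, AlgHom.commutes] at hN2
    rw [sum_homog μ _ _ he2] at hN2
    have hroot : Polynomial.aeval (e P / e Q) μ = 0 :=
      (mul_eq_zero.mp hN2).resolve_left (pow_ne_zero _ he2)
    have hroot' : (minpoly ℚ x).IsRoot (e P / e Q) := by
      rw [Polynomial.IsRoot, ← Polynomial.coe_aeval_eq_eval]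
      exact hroot
    exact ⟨_, (minpoly.root halg.isIntegral hroot').symm⟩

variable {t : ℕ} (Y : Fin t → MvPolynomial (Fin m) ℚ)
  (hYi : ∀ p : MvPolynomial (Fin t) ℚ, MvPolynomial.aeval z (MvPolynomial.aeval Y p) = 0 → p = 0)
  (hYF : ∀ i, ∃ F : Polynomial (MvPolynomial (Fin t) ℚ), F.Monic ∧
    Polynomial.eval₂ ((MvPolynomial.aeval z : MvPolynomial (Fin m) ℚ →ₐ[ℚ] L).comp
      (MvPolynomial.aeval Y : MvPolynomial (Fin t) ℚ →ₐ[ℚ] _)).toRingHom (z i) F = 0)

include hYi hYF in
/-- The basic derivations of the field `ℚ(z)` and their main properties. -/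
theorem exists_field_derivs (D : Fin t → Derivation ℚ L L)
    (hD : ∀ k (p : MvPolynomial (Fin t) ℚ), D k (MvPolynomial.aeval z (MvPolynomial.aeval Y p)) =
      MvPolynomial.aeval z (MvPolynomial.aeval Y (MvPolynomial.pderiv k p))) :
    (∀ k, ∀ x ∈ IntermediateField.adjoin ℚ (Set.range z),
      D k x ∈ IntermediateField.adjoin ℚ (Set.range z)) ∧
    (∀ δ : Derivation ℚ (IntermediateField.adjoin ℚ (Set.range z))
        (IntermediateField.adjoin ℚ (Set.range z)),
      ∃ c : Fin t → L, ∀ x : IntermediateField.adjoin ℚ (Set.range z),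
        ((δ x : IntermediateField.adjoin ℚ (Set.range z)) : L) = ∑ k, c k * D k x) := by
  classical
  set K := IntermediateField.adjoin ℚ (Set.range z) with hK
  let P := MvPolynomial (Fin t) ℚ
  let θ : P →ₐ[ℚ] L := (MvPolynomial.aeval z).comp (MvPolynomial.aeval Y)
  have hz : ∀ i, z i ∈ K := fun i => IntermediateField.subset_adjoin _ _ (Set.mem_range_self i)
  have hzp : ∀ p : MvPolynomial (Fin m) ℚ, MvPolynomial.aeval z p ∈ K := by
    intro p
    induction p using MvPolynomial.induction_on with
    | C r => rw [MvPolynomial.aeval_C]; exact K.algebraMap_mem r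
    | add p q hp hq => rw [map_add]; exact K.add_mem hp hq
    | mul_X p i hp => rw [map_mul, MvPolynomial.aeval_X]; exact K.mul_mem hp (hz i)
  let θK : P →ₐ[ℚ] K := θ.codRestrict K.toSubalgebra (fun p => hzp _)
  let algL : Algebra P L := θ.toRingHom.toAlgebra
  let algK : Algebra P K := θK.toRingHom.toAlgebra
  have hmapL : ∀ p : P, algebraMap P L p = MvPolynomial.aeval z (MvPolynomial.aeval Y p) :=
    fun p => rfl
  have hmapK : ∀ p : P, algebraMap P K p = θK p := fun p => rfl
  have tow1 : IsScalarTower P K L := IsScalarTower.of_algebraMap_eq (fun p => rfl)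
  have tow2 : IsScalarTower ℚ P K :=
    IsScalarTower.of_algebraMap_eq (R := ℚ) (S := P) (A := K) (fun r => by
      rw [hmapK, θK.commutes])
  have hinjL : Function.Injective (algebraMap P L) := by
    rw [injective_iff_map_eq_zero]
    intro p hp
    exact hYi p hp
  have hinjK : Function.Injective (algebraMap P K) := by
    rw [injective_iff_map_eq_zero]
    intro p hp
    apply hYi p
    have := congrArg (algebraMap K L) hp
    rw [← IsScalarTower.algebraMap_apply, map_zero] at this
    exact this
  have hfL : FaithfulSMul P L := (faithfulSMul_iff_algebraMap_injective P L).mpr hinjL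
  have hfK : FaithfulSMul P K := (faithfulSMul_iff_algebraMap_injective P K).mpr hinjK
  have halgL : ∀ x ∈ K, IsAlgebraic P x := by
    intro x hx
    refine IntermediateField.adjoin_induction (F := ℚ) (s := Set.range z)
      (p := fun x _ => IsAlgebraic P x) ?_ ?_ ?_ ?_ ?_ hx
    · rintro _ ⟨i, rfl⟩
      obtain ⟨F, hF, hF0⟩ := hYF i
      exact IsIntegral.isAlgebraic ⟨F, hF, hF0⟩
    · intro r
      have : algebraMap ℚ L r = algebraMap P L (algebraMap ℚ P r) := by
        rw [hmapL]
        change _ = θ _
        rw [θ.commutes]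
      rw [this]
      exact isAlgebraic_algebraMap _
    · intro x y _ _ hx hy
      exact hx.add hy
    · intro x _ hx
      exact hx.inv
    · intro x y _ _ hx hy
      exact hx.mul hy
  have halgK : Algebra.IsAlgebraic P K := by
    constructor
    intro x
    have := halgL (algebraMap K L x) x.2
    exact (isAlgebraic_algebraMap_iff (algebraMap K L).injective).mp this
  -- derivations of `K`
  have hD' : ∀ k : Fin t, ∃ δ : Derivation ℚ K K, ∀ p : P,
      δ (algebraMap P K p) = algebraMap P K (MvPolynomial.pderiv k p) := by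
    intro k
    obtain ⟨δ, hδ⟩ := exists_deriv_ext P K
      ((Algebra.linearMap P K).compDer (MvPolynomial.pderiv (R := ℚ) k))
    exact ⟨δ, fun p => by rw [hδ]; rfl⟩
  choose D' hD'2 using hD'
  have hcomp : ∀ k, ∀ x : K, D k (x : L) = ((D' k x : K) : L) := by
    intro k x
    have h1 := deriv_eq_zero_ext P K (M := L) (R := ℚ)
      ((D k).compAlgebraMap K - (Algebra.linearMap K L).compDer (D' k)) (by
        intro p
        rw [Derivation.sub_apply, sub_eq_zero]
        change D k (algebraMap K L (algebraMap P K p)) = algebraMap K L (D' k (algebraMap P K p))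
        rw [← IsScalarTower.algebraMap_apply, hmapL, hD, hD'2, ← IsScalarTower.algebraMap_apply,
          hmapL]) x
    rw [Derivation.sub_apply, sub_eq_zero] at h1
    exact h1
  refine ⟨?_, ?_⟩
  · intro k x hx
    rw [hcomp k ⟨x, hx⟩]
    exact (D' k ⟨x, hx⟩).2
  · intro δ
    refine ⟨fun k => ((δ (algebraMap P K (MvPolynomial.X k)) : K) : L), ?_⟩
    have h2 : ∀ x : K, δ x = ∑ k, δ (algebraMap P K (MvPolynomial.X k)) * D' k x := by
      let δ' : Derivation ℚ K K := δ - ∑ k, δ (algebraMap P K (MvPolynomial.X k)) • D' k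
      have happ : ∀ x, δ' x = δ x - ∑ k, δ (algebraMap P K (MvPolynomial.X k)) * D' k x := by
        intro x
        simp only [δ', Derivation.sub_apply]
        congr 1
        rw [← Derivation.coeFnAddMonoidHom_apply, map_sum, Finset.sum_apply]
        rfl
      have hzero : ∀ p : P, δ' (algebraMap P K p) = 0 := by
        intro p
        have h3 : δ'.compAlgebraMap P = 0 := by
          apply MvPolynomial.derivation_ext
          intro j
          change δ' (algebraMap P K (MvPolynomial.X j)) = 0
          rw [happ, Finset.sum_eq_single j]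
          · rw [hD'2, MvPolynomial.pderiv_X_self, map_one, mul_one, sub_self]
          · intro k _ hk
            rw [hD'2, MvPolynomial.pderiv_X_of_ne hk.symm, map_zero, mul_zero]
          · intro h; exact absurd (Finset.mem_univ _) h
        have := congrArg (fun d => d p) h3
        exact this
      intro x
      have h4 := deriv_eq_zero_ext P K δ' hzero x
      rw [happ, sub_eq_zero] at h4
      exact h4
    intro x
    rw [h2 x]
    push_cast
    apply Finset.sum_congr rfl
    intro k _
    rw [hcomp]

end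

end Pool.Agent.FourExp
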