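import Mathlib
import Pool.Agent.FourExp.PS

set_option autoImplicit false

namespace Pool.Agent.FourExp

open MvPowerSeries Finsupp

theorem pderiv_formula {m t n : ℕ} {L : Type*} [Field L] [Algebra ℚ L]
    [Algebra (MvPowerSeries (Fin m) ℚ) L] [IsScalarTower ℚ (MvPowerSeries (Fin m) ℚ) L]
    (D : Derivation ℚ L L) (φ : MvPowerSeries (Fin t) ℚ →ₐ[ℚ] MvPowerSeries (Fin m) ℚ)
    (D0 : Derivation ℚ (MvPowerSeries (Fin t) ℚ) (MvPowerSeries (Fin t) ℚ))
    (hD : ∀ s, D (algebraMap (MvPowerSeries (Fin m) ℚ) L (φ s)) =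
      algebraMap (MvPowerSeries (Fin m) ℚ) L (φ (D0 s)))
    (hgen : ∀ F : MvPowerSeries (Fin m) ℚ, ∃ s : expSet m n → MvPowerSeries (Fin t) ℚ,
      algebraMap (MvPowerSeries (Fin m) ℚ) L F =
        ∑ x : expSet m n, algebraMap (MvPowerSeries (Fin m) ℚ) L (φ (s x)) *
          algebraMap (MvPowerSeries (Fin m) ℚ) L (monomial (x : Fin m →₀ ℕ) (1:ℚ)))
    (F : MvPowerSeries (Fin m) ℚ) :
    D (algebraMap (MvPowerSeries (Fin m) ℚ) L F) =
      ∑ i, algebraMap (MvPowerSeries (Fin m) ℚ) L (pderiv ℚ i F) *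
        D (algebraMap (MvPowerSeries (Fin m) ℚ) L (X i)) := by
  set ι := algebraMap (MvPowerSeries (Fin m) ℚ) L with hι
  have hιC : ∀ r : ℚ, ι (C r) = algebraMap ℚ L r := by
    intro r
    rw [IsScalarTower.algebraMap_apply ℚ (MvPowerSeries (Fin m) ℚ) L,
      MvPowerSeries.algebraMap_apply]
    simp [hι]
  let M' : Submodule (MvPowerSeries (Fin m) ℚ) L :=
    Submodule.span (MvPowerSeries (Fin m) ℚ) (insert 1 (Set.range fun i => D (ι (X i))))
  have hM1 : (1 : L) ∈ M' := Submodule.subset_span (Set.mem_insert _ _)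
  have hMX : ∀ i, D (ι (X i)) ∈ M' := fun i =>
    Submodule.subset_span (Set.mem_insert_of_mem _ (Set.mem_range_self i))
  have hMs : ∀ (F : MvPowerSeries (Fin m) ℚ) (y : L), y ∈ M' → ι F * y ∈ M' := by
    intro F y hy
    have : ι F * y = F • y := by rw [Algebra.smul_def]
    rw [this]
    exact Submodule.smul_mem _ _ hy
  have hmul : ∀ F G : MvPowerSeries (Fin m) ℚ, D (ι (F * G)) = ι F * D (ι G) + ι G * D (ι F) := by
    intro F G
    rw [map_mul, Derivation.leibniz, smul_eq_mul, smul_eq_mul]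
  have hT_mul : ∀ F G : MvPowerSeries (Fin m) ℚ, D (ι F) ∈ M' → D (ι G) ∈ M' →
      D (ι (F * G)) ∈ M' := by
    intro F G hF hG
    rw [hmul]
    exact Submodule.add_mem _ (hMs _ _ hG) (hMs _ _ hF)
  have hT_C : ∀ r : ℚ, D (ι (C r)) = 0 := by
    intro r
    rw [hιC, Derivation.map_algebraMap]
  have hT_poly : ∀ p : MvPolynomial (Fin m) ℚ, D (ι (p : MvPowerSeries (Fin m) ℚ)) ∈ M' := by
    intro p
    induction p using MvPolynomial.induction_on with
    | C r => rw [MvPolynomial.coe_C, hT_C]; exact Submodule.zero_mem _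
    | add p q hp hq =>
      rw [MvPolynomial.coe_add, map_add, map_add]; exact Submodule.add_mem _ hp hq
    | mul_X p i hp =>
      rw [MvPolynomial.coe_mul]
      apply hT_mul _ _ hp
      rw [MvPolynomial.coe_X]
      exact hMX i
  have hT : ∀ F : MvPowerSeries (Fin m) ℚ, D (ι F) ∈ M' := by
    intro F
    obtain ⟨s, hs⟩ := hgen F
    rw [hs, map_sum]
    apply Submodule.sum_mem
    intro x _
    rw [← map_mul]
    apply hT_mul
    · rw [hD]
      have := hMs (φ (D0 (s x))) 1 hM1
      rwa [mul_one] at this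
    · have := hT_poly (MvPolynomial.monomial (x : Fin m →₀ ℕ) (1:ℚ))
      rwa [MvPolynomial.coe_monomial] at this
  -- the difference
  let δ : MvPowerSeries (Fin m) ℚ → L := fun F =>
    D (ι F) - ∑ i, ι (pderiv ℚ i F) * D (ι (X i))
  have hδM : ∀ F, δ F ∈ M' := by
    intro F
    exact Submodule.sub_mem _ (hT F) (Submodule.sum_mem _ (fun i _ => hMs _ _ (hMX i)))
  have hδadd : ∀ F G, δ (F + G) = δ F + δ G := by
    intro F G
    simp only [δ, map_add, add_mul, Finset.sum_add_distrib]
    ring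
  have hδmul : ∀ F G, δ (F * G) = ι F * δ G + ι G * δ F := by
    intro F G
    have h1 : ∑ i, ι (pderiv ℚ i (F * G)) * D (ι (X i)) =
        ι F * ∑ i, ι (pderiv ℚ i G) * D (ι (X i)) + ι G * ∑ i, ι (pderiv ℚ i F) * D (ι (X i)) := by
      rw [Finset.mul_sum, Finset.mul_sum, ← Finset.sum_add_distrib]
      apply Finset.sum_congr rfl
      intro i _
      rw [Derivation.leibniz, smul_eq_mul, smul_eq_mul, map_add, map_mul, map_mul]
      ring
    simp only [δ]
    rw [h1, hmul]
    ring
  have hδC : ∀ r : ℚ, δ (C r) = 0 := by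
    intro r
    simp only [δ, hT_C, pderiv_C, map_zero, zero_mul, Finset.sum_const_zero, sub_zero]
  have hδX : ∀ i, δ (X i) = 0 := by
    intro i
    simp only [δ]
    rw [Finset.sum_eq_single i]
    · rw [pderiv_X_self, map_one, one_mul, sub_self]
    · intro j _ hj
      rw [pderiv_X_of_ne hj.symm, map_zero, zero_mul]
    · intro h; exact absurd (Finset.mem_univ _) h
  have hδpoly : ∀ p : MvPolynomial (Fin m) ℚ, δ (p : MvPowerSeries (Fin m) ℚ) = 0 := by
    intro p
    induction p using MvPolynomial.induction_on with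
    | C r => rw [MvPolynomial.coe_C, hδC]
    | add p q hp hq => rw [MvPolynomial.coe_add, hδadd, hp, hq, add_zero]
    | mul_X p i hp => rw [MvPolynomial.coe_mul, hδmul, hp, MvPolynomial.coe_X, hδX]; ring
  have hpow : ∀ k : ℕ, ∀ F ∈ varI m ^ (k + 1), δ F ∈ (varI m ^ k) • M' := by
    intro k
    induction k with
    | zero =>
      intro F _
      rw [pow_zero, Ideal.one_eq_top, Submodule.top_smul]
      exact hδM F
    | succ k ih =>
      intro F hF
      rw [pow_succ] at hF
      refine Submodule.mul_induction_on hF ?_ ?_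
      · intro a ha b hb
        rw [hδmul]
        apply Submodule.add_mem
        · have : ι a * δ b = a • δ b := by rw [Algebra.smul_def]
          rw [this]
          exact Submodule.smul_mem_smul ha (hδM b)
        · have : ι b * δ a = b • δ a := by rw [Algebra.smul_def]
          rw [this, pow_succ', Submodule.mul_smul]
          exact Submodule.smul_mem_smul hb (ih a ha)
      · intro a b ha hb
        rw [hδadd]
        exact Submodule.add_mem _ ha hb
  have hall : ∀ k : ℕ, δ F ∈ (varI m ^ k) • M' := by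
    intro k
    have h1 : F - (truncTotal (k + 1) F : MvPowerSeries (Fin m) ℚ) ∈ varI m ^ (k + 1) := by
      apply mem_pow_of_coeff
      intro x hx
      rw [map_sub, MvPolynomial.coeff_coe, coeff_truncTotal _ hx, sub_self]
    have h2 := hpow k _ h1
    have h3 : δ F = δ (F - (truncTotal (k + 1) F : MvPowerSeries (Fin m) ℚ)) +
        δ (truncTotal (k + 1) F : MvPowerSeries (Fin m) ℚ) := by
      rw [← hδadd, sub_add_cancel]
    rw [h3, hδpoly, add_zero]
    exact h2
  have hfin : Module.Finite (MvPowerSeries (Fin m) ℚ) M' := by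
    rw [Module.Finite.iff_fg]
    exact Submodule.fg_span ((Set.finite_range _).insert _)
  have hne : varI m ≠ ⊤ := by
    intro h
    have h1 : varI m ≤ RingHom.ker (constantCoeff : MvPowerSeries (Fin m) ℚ →+* ℚ) := by
      rw [Ideal.span_le]
      rintro _ ⟨i, rfl⟩
      simp
    rw [h] at h1
    have h2 := h1 (x := 1) trivial
    simp at h2
  have hkrull := Ideal.iInf_pow_smul_eq_bot_of_isLocalRing (M := M') (varI m) hne
  have hmem : (⟨δ F, hδM F⟩ : M') ∈ (⨅ k : ℕ, (varI m) ^ k • ⊤ :
      Submodule (MvPowerSeries (Fin m) ℚ) M') := by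
    rw [Submodule.mem_iInf]
    intro k
    rw [Submodule.mem_smul_top_iff]
    exact hall k
  rw [hkrull, Submodule.mem_bot] at hmem
  have h0 : δ F = 0 := congrArg Subtype.val hmem
  exact sub_eq_zero.mp h0

end Pool.Agent.FourExp
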