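import Mathlib

set_option autoImplicit false

namespace Pool.Agent.FourExp

open MvPowerSeries Finsupp Filter Topology

/-- The real number `p(z)` for a rational polynomial and a rational point. -/
noncomputable def ev (z : Fin 4 → ℚ) (p : MvPolynomial (Fin 4) ℚ) : ℝ :=
  ((MvPolynomial.eval z p : ℚ) : ℝ)

@[simp] lemma ev_add (z : Fin 4 → ℚ) (p q : MvPolynomial (Fin 4) ℚ) :
    ev z (p + q) = ev z p + ev z q := by simp [ev]

@[simp] lemma ev_sub (z : Fin 4 → ℚ) (p q : MvPolynomial (Fin 4) ℚ) :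
    ev z (p - q) = ev z p - ev z q := by simp [ev]

@[simp] lemma ev_mul (z : Fin 4 → ℚ) (p q : MvPolynomial (Fin 4) ℚ) :
    ev z (p * q) = ev z p * ev z q := by simp [ev]

@[simp] lemma ev_zero (z : Fin 4 → ℚ) : ev z 0 = 0 := by simp [ev]

@[simp] lemma ev_one (z : Fin 4 → ℚ) : ev z 1 = 1 := by simp [ev]

/-- `p` has no monomials of degree `< M`. -/
def HighOrder (M : ℕ) (p : MvPolynomial (Fin 4) ℚ) : Prop :=
  ∀ x : Fin 4 →₀ ℕ, degree x < M → MvPolynomial.coeff x p = 0

/-- A system of rational points converging to `0` with denominators polynomial in `1 / ε`. -/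
structure Pts where
  /-- the points -/
  z : ℕ → Fin 4 → ℚ
  /-- their size -/
  ε : ℕ → ℝ
  /-- exponent -/
  Λ : ℕ
  ε_pos : ∀ n, 0 < ε n
  ε_le : ∀ n, ε n ≤ 1 / 2
  lim : Tendsto ε atTop (𝓝 0)
  z_le : ∀ n i, |(z n i : ℝ)| ≤ ε n
  den_le : ∀ n i, ((z n i).den : ℝ) * ε n ^ Λ ≤ 1

namespace Pts

variable (P : Pts)

/-- the ultrafilter used throughout -/
noncomputable abbrev U : Filter ℕ := (hyperfilter ℕ : Filter ℕ)

lemma lim' : Tendsto P.ε U (𝓝 0) := P.lim.mono_left Nat.hyperfilter_le_atTop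

lemma ε_le_one (n : ℕ) : P.ε n ≤ 1 := (P.ε_le n).trans (by norm_num)

lemma abs_monomial_le (n : ℕ) (x : Fin 4 →₀ ℕ) :
    |∏ i, (P.z n i : ℝ) ^ x i| ≤ P.ε n ^ degree x := by
  rw [Finset.abs_prod, Finsupp.degree_eq_sum, ← Finset.prod_pow_eq_pow_sum]
  apply Finset.prod_le_prod
  · intro i _; exact abs_nonneg _
  · intro i _
    rw [abs_pow]
    exact pow_le_pow_left₀ (abs_nonneg _) (P.z_le n i) _

lemma ev_eq (z : Fin 4 → ℚ) (p : MvPolynomial (Fin 4) ℚ) :
    ev z p = ∑ x ∈ p.support, ((MvPolynomial.coeff x p : ℚ) : ℝ) * ∏ i, (z i : ℝ) ^ x i := by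
  rw [ev, MvPolynomial.eval_eq']
  push_cast
  rfl

lemma high_bound (p : MvPolynomial (Fin 4) ℚ) (M : ℕ) (hp : HighOrder M p) :
    ∃ C : ℝ, 0 ≤ C ∧ ∀ n, |ev (P.z n) p| ≤ C * P.ε n ^ M := by
  refine ⟨∑ x ∈ p.support, |((MvPolynomial.coeff x p : ℚ) : ℝ)|,
    Finset.sum_nonneg (fun _ _ => abs_nonneg _), fun n => ?_⟩
  rw [ev_eq, Finset.sum_mul]
  refine (Finset.abs_sum_le_sum_abs _ _).trans ?_
  apply Finset.sum_le_sum
  intro x hx
  rw [abs_mul]
  apply mul_le_mul_of_nonneg_left _ (abs_nonneg _)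
  refine (P.abs_monomial_le n x).trans ?_
  have hM : M ≤ degree x := by
    by_contra h
    exact (MvPolynomial.mem_support_iff.mp hx) (hp x (by omega))
  exact pow_le_pow_of_le_one (P.ε_pos n).le (P.ε_le_one n) hM

/-- The prime ideal of power series which are infinitely small along the ultrafilter. -/
def Small (f : MvPowerSeries (Fin 4) ℚ) : Prop :=
  ∀ M : ℕ, ∃ C : ℝ, 0 ≤ C ∧ ∀ᶠ n in U, |ev (P.z n) (truncTotal M f)| ≤ C * P.ε n ^ M

lemma highOrder_trunc_sub (f : MvPowerSeries (Fin 4) ℚ) {M N : ℕ} (h : M ≤ N) :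
    HighOrder M (truncTotal N f - truncTotal M f) := by
  intro x hx
  rw [MvPolynomial.coeff_sub, coeff_truncTotal _ hx, coeff_truncTotal _ (by omega), sub_self]

lemma highOrder_trunc_mul (f g : MvPowerSeries (Fin 4) ℚ) (M : ℕ) :
    HighOrder M (truncTotal M (f * g) - truncTotal M f * truncTotal M g) := by
  intro x hx
  rw [MvPolynomial.coeff_sub, coeff_truncTotal _ hx,
    coeff_truncTotal_mul_truncTotal_eq_coeff_mul _ _ hx, sub_self]

lemma Small.add {f g : MvPowerSeries (Fin 4) ℚ} (hf : P.Small f) (hg : P.Small g) :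
    P.Small (f + g) := by
  intro M
  obtain ⟨C, hC, h1⟩ := hf M
  obtain ⟨C', hC', h2⟩ := hg M
  refine ⟨C + C', by positivity, ?_⟩
  filter_upwards [h1, h2] with n h1 h2
  rw [map_add, ev_add, add_mul]
  exact (abs_add_le _ _).trans (add_le_add h1 h2)

lemma Small.zero : P.Small 0 := by
  intro M
  refine ⟨0, le_rfl, ?_⟩
  filter_upwards with n
  simp

lemma Small.mul_left (c : MvPowerSeries (Fin 4) ℚ) {f : MvPowerSeries (Fin 4) ℚ}
    (hf : P.Small f) : P.Small (c * f) := by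
  intro M
  obtain ⟨C, hC, h1⟩ := hf M
  obtain ⟨C', hC', h2⟩ := P.high_bound (truncTotal M c) 0 (fun x hx => absurd hx (by omega))
  obtain ⟨C'', hC'', h3⟩ := P.high_bound _ M (highOrder_trunc_mul c f M)
  refine ⟨C'' + C' * C, by positivity, ?_⟩
  filter_upwards [h1] with n h1
  have h2n := h2 n
  have h3n := h3 n
  rw [pow_zero, mul_one] at h2n
  rw [ev_sub, ev_mul] at h3n
  have : ev (P.z n) (truncTotal M (c * f)) =
      (ev (P.z n) (truncTotal M (c * f)) - ev (P.z n) (truncTotal M c) *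
        ev (P.z n) (truncTotal M f)) + ev (P.z n) (truncTotal M c) *
        ev (P.z n) (truncTotal M f) := by ring
  rw [this, add_mul]
  refine (abs_add_le _ _).trans (add_le_add h3n ?_)
  rw [abs_mul, mul_assoc]
  exact mul_le_mul h2n h1 (abs_nonneg _) hC'

/-- The ideal of infinitely small power series. -/
noncomputable def q : Ideal (MvPowerSeries (Fin 4) ℚ) where
  carrier := {f | P.Small f}
  add_mem' := fun hf hg => Small.add P hf hg
  zero_mem' := Small.zero P
  smul_mem' := fun c _ hf => Small.mul_left P c hf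

lemma mem_q {f : MvPowerSeries (Fin 4) ℚ} : f ∈ P.q ↔ P.Small f := Iff.rfl

/-- eventually `C ε^N < c` for `N ≥ 1`, `c > 0`. -/
lemma eventually_mul_lt (C c : ℝ) (hc : 0 < c) (N : ℕ) (hN : N ≠ 0) :
    ∀ᶠ n in U, C * P.ε n ^ N < c := by
  have h : Tendsto (fun n => C * P.ε n ^ N) U (𝓝 (C * 0 ^ N)) :=
    (P.lim'.pow N).const_mul C
  rw [zero_pow hN, mul_zero] at h
  exact h.eventually (gt_mem_nhds hc)

lemma eventually_pow_lt (C c : ℝ) (hc : 0 < c) (M N : ℕ) (hMN : M < N) :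
    ∀ᶠ n in U, C * P.ε n ^ N < c * P.ε n ^ M := by
  filter_upwards [P.eventually_mul_lt C c hc (N - M) (by omega)] with n hn
  have h1 : P.ε n ^ N = P.ε n ^ (N - M) * P.ε n ^ M := by
    rw [← pow_add]; congr 1; omega
  rw [h1, ← mul_assoc]
  exact mul_lt_mul_of_pos_right hn (pow_pos (P.ε_pos n) _)

lemma constantCoeff_eq_zero_of_small {f : MvPowerSeries (Fin 4) ℚ} (hf : P.Small f) :
    constantCoeff f = 0 := by
  by_contra h
  obtain ⟨C, hC, h1⟩ := hf 1
  have h2 := P.eventually_mul_lt C |((constantCoeff f : ℚ) : ℝ)|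
    (abs_pos.mpr (by exact_mod_cast h)) 1 one_ne_zero
  obtain ⟨n, hn1, hn2⟩ := (h1.and h2).exists
  have h3 : truncTotal 1 f = MvPolynomial.C (constantCoeff f) := by
    ext x
    rw [coeff_truncTotal_eq_ite, MvPolynomial.coeff_C]
    by_cases hx : x = 0
    · subst hx; simp
    · rw [if_neg, if_neg (Ne.symm hx)]
      have : degree x ≠ 0 := by
        rwa [Ne, Finsupp.degree_eq_zero_iff]
      omega
  rw [h3] at hn1
  simp only [ev, MvPolynomial.eval_C] at hn1
  exact absurd (lt_of_le_of_lt hn1 hn2) (lt_irrefl _)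

lemma not_small_lower {f : MvPowerSeries (Fin 4) ℚ} (hf : ¬ P.Small f) :
    ∃ M : ℕ, ∀ N : ℕ, M ≤ N → ∀ᶠ n in U, P.ε n ^ M ≤ |ev (P.z n) (truncTotal N f)| := by
  unfold Small at hf
  push Not at hf
  obtain ⟨M, hM⟩ := hf
  refine ⟨M, fun N hMN => ?_⟩
  obtain ⟨C', hC', h3⟩ := P.high_bound _ M (highOrder_trunc_sub f hMN)
  have h := hM (C' + 1) (by positivity)
  filter_upwards [h] with n hn
  have h3n := h3 n
  rw [ev_sub] at h3n
  have h4 : |ev (P.z n) (truncTotal M f)| ≤ |ev (P.z n) (truncTotal N f)| +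
      |ev (P.z n) (truncTotal N f) - ev (P.z n) (truncTotal M f)| := by
    have : ev (P.z n) (truncTotal M f) = ev (P.z n) (truncTotal N f) -
      (ev (P.z n) (truncTotal N f) - ev (P.z n) (truncTotal M f)) := by ring
    calc |ev (P.z n) (truncTotal M f)| = |ev (P.z n) (truncTotal N f) -
      (ev (P.z n) (truncTotal N f) - ev (P.z n) (truncTotal M f))| := by rw [← this]
      _ ≤ _ := abs_sub _ _
  nlinarith

lemma q_isPrime : P.q.IsPrime := by
  constructor
  · intro h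
    have : (1 : MvPowerSeries (Fin 4) ℚ) ∈ P.q := by rw [h]; trivial
    have h1 := P.constantCoeff_eq_zero_of_small this
    simp at h1
  · intro f g hfg
    by_contra hcon
    push Not at hcon
    obtain ⟨hf, hg⟩ := hcon
    obtain ⟨M1, h1⟩ := P.not_small_lower hf
    obtain ⟨M2, h2⟩ := P.not_small_lower hg
    set N := M1 + M2 + 1 with hN
    obtain ⟨C, hC, h3⟩ := hfg N
    obtain ⟨C', hC', h4⟩ := P.high_bound _ N (highOrder_trunc_mul f g N)
    have h5 := P.eventually_pow_lt (C + C') 1 one_pos (M1 + M2) N (by omega)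
    obtain ⟨n, ⟨⟨⟨hn1, hn2⟩, hn3⟩, hn5⟩⟩ :=
      ((((h1 N (by omega)).and (h2 N (by omega))).and h3).and h5).exists
    have hn4 := h4 n
    rw [ev_sub, ev_mul] at hn4
    have h6 : P.ε n ^ (M1 + M2) ≤ |ev (P.z n) (truncTotal N f) * ev (P.z n) (truncTotal N g)| := by
      rw [pow_add, abs_mul]
      exact mul_le_mul hn1 hn2 (pow_nonneg (P.ε_pos n).le _) (abs_nonneg _)
    have h7 : |ev (P.z n) (truncTotal N f) * ev (P.z n) (truncTotal N g)| ≤
        |ev (P.z n) (truncTotal N (f * g))| + |ev (P.z n) (truncTotal N (f * g)) -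
        ev (P.z n) (truncTotal N f) * ev (P.z n) (truncTotal N g)| := by
      have : ev (P.z n) (truncTotal N f) * ev (P.z n) (truncTotal N g) =
        ev (P.z n) (truncTotal N (f * g)) - (ev (P.z n) (truncTotal N (f * g)) -
        ev (P.z n) (truncTotal N f) * ev (P.z n) (truncTotal N g)) := by ring
      calc _ = |ev (P.z n) (truncTotal N (f * g)) - (ev (P.z n) (truncTotal N (f * g)) -
        ev (P.z n) (truncTotal N f) * ev (P.z n) (truncTotal N g))| := by rw [← this]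
        _ ≤ _ := abs_sub _ _
    rw [one_mul] at hn5
    rw [add_mul] at hn5
    linarith

end Pts

end Pool.Agent.FourExp
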