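import Mathlib
import Pool.Agent.FourExp.Arith
import Pool.Agent.FourExp.Inj

set_option autoImplicit false

namespace Pool.Agent.FourExp

open MvPowerSeries Finsupp Filter Topology

namespace Pts

variable (P : Pts)

/-- `f` is an asymptotic expansion of the sequence `F`. -/
def Rep (f : MvPowerSeries (Fin 4) ℚ) (F : ℕ → ℝ) : Prop :=
  ∀ M : ℕ, ∃ C : ℝ, 0 ≤ C ∧ ∀ᶠ n in U, |ev (P.z n) (truncTotal M f) - F n| ≤ C * P.ε n ^ M

lemma highOrder_sub_trunc (p : MvPolynomial (Fin 4) ℚ) (M : ℕ) :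
    HighOrder M (truncTotal M (p : MvPowerSeries (Fin 4) ℚ) - p) := by
  intro x hx
  rw [MvPolynomial.coeff_sub, coeff_truncTotal _ hx, MvPolynomial.coeff_coe, sub_self]

lemma rep_poly (p : MvPolynomial (Fin 4) ℚ) : P.Rep p (fun n => ev (P.z n) p) := by
  intro M
  obtain ⟨C, hC, h⟩ := P.high_bound _ M (highOrder_sub_trunc p M)
  refine ⟨C, hC, Eventually.of_forall fun n => ?_⟩
  rw [← ev_sub]
  exact h n

variable {P}

lemma Rep.add {f g : MvPowerSeries (Fin 4) ℚ} {F G : ℕ → ℝ} (hf : P.Rep f F) (hg : P.Rep g G) :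
    P.Rep (f + g) (fun n => F n + G n) := by
  intro M
  obtain ⟨C, hC, h1⟩ := hf M
  obtain ⟨C', hC', h2⟩ := hg M
  refine ⟨C + C', by positivity, ?_⟩
  filter_upwards [h1, h2] with n h1 h2
  rw [map_add, ev_add, add_mul]
  have : ev (P.z n) (truncTotal M f) + ev (P.z n) (truncTotal M g) - (F n + G n) =
    (ev (P.z n) (truncTotal M f) - F n) + (ev (P.z n) (truncTotal M g) - G n) := by ring
  rw [this]
  exact (abs_add_le _ _).trans (add_le_add h1 h2)

lemma Rep.mul {f g : MvPowerSeries (Fin 4) ℚ} {F G : ℕ → ℝ} (hf : P.Rep f F) (hg : P.Rep g G) :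
    P.Rep (f * g) (fun n => F n * G n) := by
  intro M
  obtain ⟨C, hC, h1⟩ := hf M
  obtain ⟨C', hC', h2⟩ := hg M
  obtain ⟨A, hA, h3⟩ := P.high_bound (truncTotal M g) 0 (fun x hx => absurd hx (by omega))
  obtain ⟨B, hB, h4⟩ := hf 0
  obtain ⟨E, hE, h5⟩ := P.high_bound _ M (highOrder_trunc_mul f g M)
  refine ⟨E + C * A + B * C', by positivity, ?_⟩
  filter_upwards [h1, h2, h4] with n h1 h2 h4
  have h3n := h3 n
  have h5n := h5 n
  rw [pow_zero, mul_one] at h3n h4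
  have h6 : truncTotal 0 f = 0 := by
    ext x
    rw [coeff_truncTotal_eq_ite]
    simp
  rw [h6, ev_zero, zero_sub, abs_neg] at h4
  rw [ev_sub, ev_mul] at h5n
  have : ev (P.z n) (truncTotal M (f * g)) - F n * G n =
      (ev (P.z n) (truncTotal M (f * g)) - ev (P.z n) (truncTotal M f) *
        ev (P.z n) (truncTotal M g)) +
      (ev (P.z n) (truncTotal M f) - F n) * ev (P.z n) (truncTotal M g) +
      F n * (ev (P.z n) (truncTotal M g) - G n) := by ring
  rw [this, add_mul, add_mul]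
  have hε : 0 ≤ P.ε n ^ M := pow_nonneg (P.ε_pos n).le _
  refine (abs_add_le _ _).trans (add_le_add ((abs_add_le _ _).trans (add_le_add h5n ?_)) ?_)
  · rw [abs_mul, mul_right_comm]
    exact mul_le_mul h1 h3n (abs_nonneg _) (by positivity)
  · rw [abs_mul, mul_assoc]
    exact mul_le_mul h4 h2 (abs_nonneg _) hB

lemma Rep.congr {f : MvPowerSeries (Fin 4) ℚ} {F G : ℕ → ℝ} (hf : P.Rep f F)
    (h : ∀ n, F n = G n) : P.Rep f G := by
  have : F = G := funext h
  rwa [← this]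

lemma rep_C (c : ℚ) : P.Rep (C c) (fun _ => (c : ℝ)) := by
  have h := P.rep_poly (MvPolynomial.C c)
  rw [MvPolynomial.coe_C] at h
  exact h.congr (fun n => by simp [ev])

lemma Rep.neg {f : MvPowerSeries (Fin 4) ℚ} {F : ℕ → ℝ} (hf : P.Rep f F) :
    P.Rep (-f) (fun n => - F n) := by
  have h := (rep_C (P := P) (-1)).mul hf
  have h1 : (C (-1 : ℚ) : MvPowerSeries (Fin 4) ℚ) * f = -f := by
    rw [map_neg, map_one, neg_one_mul]
  rw [h1] at h
  exact h.congr (fun n => by push_cast; ring)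

lemma Rep.sub {f g : MvPowerSeries (Fin 4) ℚ} {F G : ℕ → ℝ} (hf : P.Rep f F) (hg : P.Rep g G) :
    P.Rep (f - g) (fun n => F n - G n) := by
  rw [sub_eq_add_neg]
  exact (hf.add hg.neg).congr (fun n => by ring)

lemma rep_zero : P.Rep 0 (fun _ => 0) := by
  have := rep_C (P := P) 0
  rw [map_zero] at this
  exact this.congr (fun n => by simp)

lemma Rep.sum {ι : Type*} (s : Finset ι) {f : ι → MvPowerSeries (Fin 4) ℚ} {F : ι → ℕ → ℝ}
    (h : ∀ i ∈ s, P.Rep (f i) (F i)) : P.Rep (∑ i ∈ s, f i) (fun n => ∑ i ∈ s, F i n) := by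
  classical
  induction s using Finset.induction_on with
  | empty => simpa using rep_zero
  | insert a s ha ih =>
    rw [Finset.sum_insert ha]
    refine ((h a (Finset.mem_insert_self _ _)).add
      (ih (fun i hi => h i (Finset.mem_insert_of_mem hi)))).congr (fun n => ?_)
    rw [Finset.sum_insert ha]

lemma Rep.mem_iff {f : MvPowerSeries (Fin 4) ℚ} {F : ℕ → ℝ} (hf : P.Rep f F) :
    f ∈ P.q ↔ ∀ M : ℕ, ∃ C : ℝ, 0 ≤ C ∧ ∀ᶠ n in U, |F n| ≤ C * P.ε n ^ M := by
  constructor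
  · intro h M
    obtain ⟨C, hC, h1⟩ := hf M
    obtain ⟨C', hC', h2⟩ := (P.mem_q.mp h) M
    refine ⟨C + C', by positivity, ?_⟩
    filter_upwards [h1, h2] with n h1 h2
    rw [add_mul]
    have : F n = -(ev (P.z n) (truncTotal M f) - F n) + ev (P.z n) (truncTotal M f) := by ring
    rw [this]
    refine (abs_add_le _ _).trans (add_le_add ?_ h2)
    rw [abs_neg]
    exact h1
  · intro h M
    obtain ⟨C, hC, h1⟩ := hf M
    obtain ⟨C', hC', h2⟩ := h M
    refine ⟨C + C', by positivity, ?_⟩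
    filter_upwards [h1, h2] with n h1 h2
    rw [add_mul]
    have : ev (P.z n) (truncTotal M f) = (ev (P.z n) (truncTotal M f) - F n) + F n := by ring
    rw [this]
    exact (abs_add_le _ _).trans (add_le_add h1 h2)

variable (P)

lemma exists_int_mul (p : MvPolynomial (Fin 4) ℚ) (d : ℕ) (hd : p.totalDegree ≤ d) :
    ∃ N : ℕ, N ≠ 0 ∧ ∀ z : Fin 4 → ℚ, ∃ k : ℤ,
      MvPolynomial.eval z p * (N * ∏ i, ((z i).den : ℚ) ^ d) = k := by
  classical
  let N : ℕ := ∏ x ∈ p.support, (MvPolynomial.coeff x p).den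
  refine ⟨N, Finset.prod_ne_zero_iff.mpr (fun x _ => Rat.den_nz _), fun z => ?_⟩
  have hterm : ∀ x ∈ p.support, ∃ k : ℤ, (MvPolynomial.coeff x p * ∏ i, z i ^ x i) *
      (N * ∏ i, ((z i).den : ℚ) ^ d) = k := by
    intro x hx
    have h1 : ∃ a : ℤ, MvPolynomial.coeff x p * (N : ℚ) = a := by
      obtain ⟨b, hb⟩ := Finset.dvd_prod_of_mem (fun x => (MvPolynomial.coeff x p).den) hx
      refine ⟨(MvPolynomial.coeff x p).num * b, ?_⟩
      change _ * ((∏ x ∈ p.support, (MvPolynomial.coeff x p).den : ℕ) : ℚ) = _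
      rw [hb]
      push_cast
      rw [← mul_assoc, Rat.mul_den_eq_num]
    have h2 : ∀ i, ∃ a : ℤ, z i ^ x i * ((z i).den : ℚ) ^ d = a := by
      intro i
      have hxi : x i ≤ d := by
        have h3 := MvPolynomial.le_totalDegree hx
        rw [Finsupp.sum_fintype _ _ (fun _ => rfl)] at h3
        exact (Finset.single_le_sum (f := fun i => x i) (fun _ _ => Nat.zero_le _)
          (Finset.mem_univ i)).trans (h3.trans hd)
      refine ⟨(z i).num ^ x i * ((z i).den : ℤ) ^ (d - x i), ?_⟩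
      push_cast
      rw [← Rat.mul_den_eq_num, mul_pow, mul_assoc, ← pow_add]
      congr 2
      omega
    obtain ⟨a, ha⟩ := h1
    choose b hb using h2
    refine ⟨a * ∏ i, b i, ?_⟩
    push_cast
    rw [← ha, Finset.prod_congr rfl (fun i _ => (hb i).symm), Finset.prod_mul_distrib]
    ring
  choose! k hk using hterm
  refine ⟨∑ x ∈ p.support, k x, ?_⟩
  rw [MvPolynomial.eval_eq', Finset.sum_mul]
  push_cast
  exact Finset.sum_congr rfl hk

lemma prod_den_le (n d : ℕ) : (∏ i, ((P.z n i).den : ℝ) ^ d) * P.ε n ^ (4 * P.Λ * d) ≤ 1 := by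
  have h1 : (∏ i : Fin 4, ((P.z n i).den : ℝ) ^ d) * P.ε n ^ (4 * P.Λ * d) =
      ∏ i : Fin 4, (((P.z n i).den : ℝ) * P.ε n ^ P.Λ) ^ d := by
    simp_rw [mul_pow]
    rw [Finset.prod_mul_distrib]
    congr 1
    rw [Finset.prod_const, Finset.card_univ, Fintype.card_fin, ← pow_mul, ← pow_mul]
    congr 1
    ring
  rw [h1]
  apply Finset.prod_le_one
  · intro i _
    have := (P.ε_pos n).le
    positivity
  · intro i _
    apply pow_le_one₀
    · have := (P.ε_pos n).le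
      positivity
    · exact P.den_le n i

/-- A polynomial of degree `≤ d` which is `O(ε ^ M)` with `M > 4 Λ d` vanishes at the points. -/
lemma eventually_zero (p : MvPolynomial (Fin 4) ℚ) (d M : ℕ) (hd : p.totalDegree ≤ d)
    (hM : 4 * P.Λ * d < M) (C : ℝ) (h : ∀ᶠ n in U, |ev (P.z n) p| ≤ C * P.ε n ^ M) :
    ∀ᶠ n in U, ev (P.z n) p = 0 := by
  obtain ⟨N, hN, hk⟩ := exists_int_mul p d hd
  have hN' : (0:ℝ) < N := by exact_mod_cast Nat.pos_of_ne_zero hN
  have h1 := P.eventually_pow_lt C (1 / N) (by positivity) (4 * P.Λ * d) M hM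
  filter_upwards [h, h1] with n h h1
  by_contra hne
  obtain ⟨k, hk⟩ := hk (P.z n)
  have hk' : ev (P.z n) p * (N * ∏ i, ((P.z n i).den : ℝ) ^ d) = k := by
    rw [ev]
    exact_mod_cast hk
  have hprod : (0:ℝ) < ∏ i, ((P.z n i).den : ℝ) ^ d := by
    apply Finset.prod_pos
    intro i _
    have : (0:ℝ) < (P.z n i).den := by exact_mod_cast (P.z n i).den_pos
    positivity
  have hk0 : k ≠ 0 := by
    rintro rfl
    rw [Int.cast_zero, mul_eq_zero] at hk'
    rcases hk' with h' | h'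
    · exact hne h'
    · have : (0:ℝ) < N * ∏ i, ((P.z n i).den : ℝ) ^ d := by positivity
      exact this.ne' h'
  have hk1 : (1:ℝ) ≤ |(k:ℝ)| := by
    rw [← Int.cast_abs]
    exact_mod_cast Int.one_le_abs hk0
  rw [← hk', abs_mul, abs_of_pos (by positivity : (0:ℝ) < N * ∏ i, ((P.z n i).den : ℝ) ^ d)] at hk1
  have h2 : |ev (P.z n) p| < 1 / N * P.ε n ^ (4 * P.Λ * d) := lt_of_le_of_lt h h1
  have h3 := P.prod_den_le n d
  have h4 : |ev (P.z n) p| * (N * ∏ i, ((P.z n i).den : ℝ) ^ d) <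
      1 / N * P.ε n ^ (4 * P.Λ * d) * (N * ∏ i, ((P.z n i).den : ℝ) ^ d) :=
    mul_lt_mul_of_pos_right h2 (by positivity)
  have h5 : 1 / N * P.ε n ^ (4 * P.Λ * d) * (N * ∏ i, ((P.z n i).den : ℝ) ^ d) =
      (∏ i, ((P.z n i).den : ℝ) ^ d) * P.ε n ^ (4 * P.Λ * d) := by
    field_simp
  linarith

lemma poly_mem_iff (p : MvPolynomial (Fin 4) ℚ) :
    (p : MvPowerSeries (Fin 4) ℚ) ∈ P.q ↔ ∀ᶠ n in U, ev (P.z n) p = 0 := by
  constructor
  · intro h
    rw [(P.rep_poly p).mem_iff] at h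
    obtain ⟨C, _, hC⟩ := h (4 * P.Λ * p.totalDegree + 1)
    exact P.eventually_zero p p.totalDegree _ le_rfl (Nat.lt_succ_self _) C hC
  · intro h
    rw [(P.rep_poly p).mem_iff]
    intro M
    refine ⟨0, le_rfl, ?_⟩
    filter_upwards [h] with n hn
    rw [hn]; simp

lemma rigid_q : Rigid P.q := by
  refine ⟨4 * P.Λ + 1, ?_⟩
  intro p d f hd hf hord
  rw [poly_mem_iff]
  set M := (4 * P.Λ + 1) * (d + 1) with hM
  obtain ⟨C1, hC1, h1⟩ := P.high_bound _ M (highOrder_sub_trunc p M)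
  obtain ⟨C2, hC2, h2⟩ := (P.mem_q.mp hf) M
  apply P.eventually_zero p d M hd (by rw [hM]; nlinarith) (C1 + C2)
  filter_upwards [h2] with n h2
  have h3 : truncTotal M (p : MvPowerSeries (Fin 4) ℚ) = truncTotal M f := by
    ext x
    rw [coeff_truncTotal_eq_ite, coeff_truncTotal_eq_ite]
    split_ifs with hx
    · have h4 : coeff x ((p : MvPowerSeries (Fin 4) ℚ) - f) = 0 := by
        apply coeff_of_lt_order
        exact lt_of_lt_of_le (by exact_mod_cast hx) hord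
      rw [map_sub, sub_eq_zero] at h4
      exact h4
    · rfl
  have h1n := h1 n
  rw [ev_sub, h3] at h1n
  have h5 : ev (P.z n) p = -(ev (P.z n) (truncTotal M f) - ev (P.z n) p) +
    ev (P.z n) (truncTotal M f) := by ring
  rw [h5, add_mul]
  refine (abs_add_le _ _).trans (add_le_add ?_ h2)
  rw [abs_neg]
  exact h1n

lemma exists_point (Q : MvPolynomial (Fin 4) ℚ) (hQ : (Q : MvPowerSeries (Fin 4) ℚ) ∉ P.q) :
    ∃ e : MvPolynomial (Fin 4) ℚ →ₐ[ℚ] ℚ,
      (∀ p : MvPolynomial (Fin 4) ℚ, (p : MvPowerSeries (Fin 4) ℚ) ∈ P.q → e p = 0) ∧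
      e Q ≠ 0 := by
  rw [poly_mem_iff] at hQ
  have hQ' : ∀ᶠ n in U, ev (P.z n) Q ≠ 0 := by
    simp only [U] at hQ ⊢
    exact Ultrafilter.eventually_not.mpr hQ
  let 𝔭 : Ideal (MvPolynomial (Fin 4) ℚ) :=
    P.q.comap (MvPolynomial.coeToMvPowerSeries.ringHom : MvPolynomial (Fin 4) ℚ →+* _)
  obtain ⟨S, hS⟩ : 𝔭.FG := IsNoetherian.noetherian 𝔭
  have hall : ∀ᶠ n in U, ∀ p ∈ S, ev (P.z n) p = 0 := by
    rw [Filter.eventually_all_finset]
    intro p hp
    rw [← poly_mem_iff]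
    have : p ∈ 𝔭 := by rw [← hS]; exact Ideal.subset_span hp
    exact this
  obtain ⟨n, hn1, hn2⟩ := (hQ'.and hall).exists
  refine ⟨MvPolynomial.aeval (P.z n), ?_, ?_⟩
  · have h1 : 𝔭 ≤ RingHom.ker (MvPolynomial.aeval (P.z n) :
        MvPolynomial (Fin 4) ℚ →ₐ[ℚ] ℚ).toRingHom := by
      rw [← hS, Ideal.span_le]
      intro p hp
      have := hn2 p hp
      rw [ev] at this
      have h2 : MvPolynomial.eval (P.z n) p = 0 := by exact_mod_cast this
      rw [SetLike.mem_coe, RingHom.mem_ker]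
      rw [← MvPolynomial.coe_aeval_eq_eval] at h2
      exact h2
    intro p hp
    have h3 : p ∈ 𝔭 := hp
    exact h1 h3
  · intro h
    apply hn1
    rw [ev, ← MvPolynomial.coe_aeval_eq_eval]
    exact_mod_cast h

end Pts

end Pool.Agent.FourExp
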