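import Mathlib
import Pool.Agent.FourExp.Arith2

set_option autoImplicit false

namespace Pool.Agent.FourExp

open MvPowerSeries Finsupp Filter Topology

/-- formal geometric series `1 / (1 + X_i)` -/
noncomputable def geo (i : Fin 4) : MvPowerSeries (Fin 4) ℚ :=
  fun x => if x = single i (x i) then (-1) ^ (x i) else 0

/-- formal logarithm `log (1 + X_i)` -/
noncomputable def lw (i : Fin 4) : MvPowerSeries (Fin 4) ℚ :=
  fun x => if x = single i (x i) then (-1) ^ (x i + 1) / (x i : ℚ) else 0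

lemma coeff_geo (i : Fin 4) (x : Fin 4 →₀ ℕ) :
    coeff x (geo i) = if x = single i (x i) then (-1) ^ (x i) else 0 := rfl

lemma coeff_lw (i : Fin 4) (x : Fin 4 →₀ ℕ) :
    coeff x (lw i) = if x = single i (x i) then (-1) ^ (x i + 1) / (x i : ℚ) else 0 := rfl

lemma lw_const (i : Fin 4) : constantCoeff (lw i) = 0 := by
  rw [← coeff_zero_eq_constantCoeff_apply, coeff_lw]
  simp

lemma pderiv_lw_self (i : Fin 4) : pderiv ℚ i (lw i) = geo i := by
  ext x
  rw [coeff_pderiv, coeff_lw, coeff_geo]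
  have h1 : (x + single i 1 : Fin 4 →₀ ℕ) i = x i + 1 := by simp
  rw [h1]
  have h2 : x + single i 1 = single i (x i + 1) ↔ x = single i (x i) := by
    constructor
    · intro h
      ext j
      have := DFunLike.congr_fun h j
      by_cases hj : i = j
      · subst hj; simp
      · simp [hj] at this
        simp [hj, this]
    · intro h
      conv_lhs => rw [h]
      rw [← Finsupp.single_add]
  by_cases hx : x = single i (x i)
  · rw [if_pos hx, if_pos (h2.mpr hx)]
    have : ((x i : ℚ) + 1) ≠ 0 := by positivity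
    push_cast
    field_simp
    ring
  · rw [if_neg hx, if_neg (fun h => hx (h2.mp h)), zero_mul]

lemma pderiv_lw_ne (i j : Fin 4) (hj : j ≠ i) : pderiv ℚ j (lw i) = 0 := by
  ext x
  rw [coeff_pderiv, coeff_lw, if_neg, zero_mul, map_zero]
  intro h
  have := DFunLike.congr_fun h j
  simp [hj.symm, hj] at this

lemma one_add_X_mul_geo (i : Fin 4) : (1 + X i) * geo i = 1 := by
  ext x
  rw [add_mul, one_mul, map_add, X_def, coeff_monomial_mul, one_mul, coeff_geo, coeff_one]
  by_cases h0 : x = 0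
  · subst h0
    simp
  · rw [if_neg h0]
    by_cases hx : x = single i (x i)
    · have hpos : x i ≠ 0 := by
        intro h; apply h0; rw [hx, h, single_zero]
      have hle : single i 1 ≤ x := by
        rw [hx]
        simp [Finsupp.single_le_iff]
        omega
      rw [if_pos hx, if_pos hle, coeff_geo]
      have h3 : x - single i 1 = single i ((x - single i 1 : Fin 4 →₀ ℕ) i) := by
        conv_lhs => rw [hx]
        ext j
        by_cases hj : i = j
        · subst hj; simp
        · simp [hj]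
      rw [if_pos h3]
      have h4 : (x - single i 1 : Fin 4 →₀ ℕ) i = x i - 1 := by simp
      rw [h4]
      obtain ⟨k, hk⟩ := Nat.exists_eq_succ_of_ne_zero hpos
      rw [hk]
      simp [pow_succ]
    · rw [if_neg hx, zero_add]
      split_ifs with hle
      · rw [coeff_geo, if_neg]
        intro h
        apply hx
        have h5 : x = (x - single i 1) + single i 1 := (tsub_add_cancel_of_le hle).symm
        ext j
        by_cases hj : i = j
        · subst hj; simp
        · have := DFunLike.congr_fun h j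
          simp [hj] at this
          simp [hj, this]
      · rfl

lemma hw1_lw (i : Fin 4) : (1 + X i) * pderiv ℚ i (lw i) = 1 := by
  rw [pderiv_lw_self, one_add_X_mul_geo]

lemma trunc_lw (i : Fin 4) (M : ℕ) : truncTotal M (lw i) =
    ∑ k ∈ Finset.range M, MvPolynomial.monomial (single i k) ((-1) ^ (k + 1) / (k : ℚ)) := by
  ext x
  rw [coeff_truncTotal_eq_ite, MvPolynomial.coeff_sum, coeff_lw]
  simp only [MvPolynomial.coeff_monomial]
  by_cases hx : x = single i (x i)
  · have hdeg : degree x = x i := by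
      conv_lhs => rw [hx]
      simp
    rw [if_pos hx, hdeg]
    split_ifs with hM
    · rw [Finset.sum_eq_single (x i)]
      · rw [if_pos hx.symm]
      · intro k _ hk
        rw [if_neg]
        intro h
        apply hk
        have := DFunLike.congr_fun h i
        simpa using this
      · intro h; exact absurd (Finset.mem_range.mpr hM) h
    · symm
      apply Finset.sum_eq_zero
      intro k hk
      rw [if_neg]
      intro h
      have := DFunLike.congr_fun h i
      simp at this
      have := Finset.mem_range.mp hk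
      omega
  · rw [if_neg hx]
    simp only [ite_self]
    symm
    apply Finset.sum_eq_zero
    intro k _
    rw [if_neg]
    intro h
    apply hx
    have h2 := DFunLike.congr_fun h i
    simp at h2
    rw [← h2, h]

lemma ev_trunc_lw (z : Fin 4 → ℚ) (i : Fin 4) (M : ℕ) : ev z (truncTotal M (lw i)) =
    ∑ k ∈ Finset.range M, (-1) ^ (k + 1) / (k : ℝ) * (z i : ℝ) ^ k := by
  rw [trunc_lw, ev, map_sum]
  push_cast
  apply Finset.sum_congr rfl
  intro k _
  rw [MvPolynomial.eval_monomial]
  simp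

lemma log_bound (x : ℝ) (hx : |x| ≤ 1 / 2) (M : ℕ) :
    |∑ k ∈ Finset.range M, (-1) ^ (k + 1) / (k : ℝ) * x ^ k - Real.log (1 + x)| ≤
      2 * |x| ^ M := by
  rcases M with _ | M
  · simp only [Finset.range_zero, Finset.sum_empty, zero_sub, abs_neg, pow_zero, mul_one]
    have h1 := Real.abs_log_sub_add_sum_range_le (x := -x) (by rw [abs_neg]; linarith) 0
    simp only [Finset.range_zero, Finset.sum_empty, zero_add, sub_neg_eq_add, abs_neg,
      pow_one] at h1
    refine h1.trans ?_
    rw [div_le_iff₀ (by linarith)]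
    linarith
  · have h1 := Real.abs_log_sub_add_sum_range_le (x := -x) (by rw [abs_neg]; linarith) M
    rw [sub_neg_eq_add, abs_neg] at h1
    have h2 : ∑ k ∈ Finset.range (M + 1), (-1) ^ (k + 1) / (k : ℝ) * x ^ k =
        -∑ i ∈ Finset.range M, (-x) ^ (i + 1) / ((i : ℝ) + 1) := by
      rw [Finset.sum_range_succ', ← Finset.sum_neg_distrib]
      simp only [Nat.cast_zero, div_zero, zero_mul, add_zero]
      apply Finset.sum_congr rfl
      intro k _
      rw [neg_pow x]
      push_cast
      ring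
    rw [h2]
    have h3 : -∑ i ∈ Finset.range M, (-x) ^ (i + 1) / ((i : ℝ) + 1) - Real.log (1 + x) =
        -(∑ i ∈ Finset.range M, (-x) ^ (i + 1) / ((i : ℝ) + 1) + Real.log (1 + x)) := by ring
    rw [h3, abs_neg]
    refine h1.trans ?_
    rw [div_le_iff₀ (by linarith)]
    have : 0 ≤ |x| ^ (M + 1) := by positivity
    nlinarith

namespace Pts

variable (P : Pts)

lemma rep_lw (i : Fin 4) : P.Rep (lw i) (fun n => Real.log (1 + (P.z n i : ℝ))) := by
  intro M
  refine ⟨2, by norm_num, Eventually.of_forall fun n => ?_⟩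
  rw [ev_trunc_lw]
  have h1 := log_bound (P.z n i : ℝ) ((P.z_le n i).trans (P.ε_le n)) M
  refine h1.trans ?_
  apply mul_le_mul_of_nonneg_left _ (by norm_num)
  exact pow_le_pow_left₀ (abs_nonneg _) (P.z_le n i) _

lemma one_add_pos (n : ℕ) (i : Fin 4) : (0:ℝ) < 1 + (P.z n i : ℝ) := by
  have h1 := P.z_le n i
  have h2 := P.ε_le n
  have h3 := neg_abs_le (P.z n i : ℝ)
  linarith

lemma h5_lw (n m : Fin 4 → ℕ) (c : ℚ)
    (h : (∏ i, (1 + X i) ^ n i - C c * ∏ i, (1 + X i) ^ m i : MvPowerSeries (Fin 4) ℚ) ∈ P.q) :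
    ∑ i, ((n i : MvPowerSeries (Fin 4) ℚ) - (m i : MvPowerSeries (Fin 4) ℚ)) * lw i ∈ P.q := by
  have hc : c = 1 := by
    have := P.constantCoeff_eq_zero_of_small h
    rw [map_sub, map_mul, map_prod, map_prod] at this
    simp at this
    linarith
  subst hc
  have h1 : (((∏ i, (1 + MvPolynomial.X i) ^ n i - ∏ i, (1 + MvPolynomial.X i) ^ m i :
      MvPolynomial (Fin 4) ℚ)) : MvPowerSeries (Fin 4) ℚ) ∈ P.q := by
    have h2 : (((∏ i, (1 + MvPolynomial.X i) ^ n i - ∏ i, (1 + MvPolynomial.X i) ^ m i :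
      MvPolynomial (Fin 4) ℚ)) : MvPowerSeries (Fin 4) ℚ) =
      ∏ i, (1 + X i) ^ n i - C (1:ℚ) * ∏ i, (1 + X i) ^ m i := by
      have := (MvPolynomial.coeToMvPowerSeries.ringHom (R := ℚ) (σ := Fin 4)).map_sub
        (∏ i, (1 + MvPolynomial.X i) ^ n i) (∏ i, (1 + MvPolynomial.X i) ^ m i)
      rw [MvPolynomial.coeToMvPowerSeries.ringHom_apply] at this
      rw [this, map_prod, map_prod, map_one, one_mul]
      simp
    rw [h2]
    exact h
  rw [poly_mem_iff] at h1
  have h3 : P.Rep (∑ i, ((n i : MvPowerSeries (Fin 4) ℚ) - (m i : MvPowerSeries (Fin 4) ℚ)) * lw i)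
      (fun k => ∑ i, ((n i : ℝ) - (m i : ℝ)) * Real.log (1 + (P.z k i : ℝ))) := by
    apply Rep.sum
    intro i _
    have h4 := (rep_C (P := P) ((n i : ℚ) - (m i : ℚ))).mul (P.rep_lw i)
    have h5 : (C ((n i : ℚ) - (m i : ℚ)) : MvPowerSeries (Fin 4) ℚ) =
        (n i : MvPowerSeries (Fin 4) ℚ) - (m i : MvPowerSeries (Fin 4) ℚ) := by
      rw [map_sub, map_natCast, map_natCast]
    rw [h5] at h4
    exact h4.congr (fun k => by push_cast; ring)
  rw [h3.mem_iff]
  intro M
  refine ⟨0, le_rfl, ?_⟩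
  filter_upwards [h1] with k hk
  rw [ev, map_sub, map_prod, map_prod] at hk
  simp only [map_pow, map_add, map_one, MvPolynomial.eval_X] at hk
  have hk' : ∏ i, (1 + P.z k i) ^ n i = ∏ i, (1 + P.z k i) ^ m i := by
    have : (∏ i, (1 + P.z k i) ^ n i - ∏ i, (1 + P.z k i) ^ m i : ℚ) = 0 := by exact_mod_cast hk
    exact sub_eq_zero.mp this
  have hk2 : ∏ i, (1 + (P.z k i : ℝ)) ^ n i = ∏ i, (1 + (P.z k i : ℝ)) ^ m i := by
    exact_mod_cast hk'
  have hlog := congrArg Real.log hk2
  rw [Real.log_prod (fun i _ => pow_ne_zero _ (P.one_add_pos k i).ne'),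
    Real.log_prod (fun i _ => pow_ne_zero _ (P.one_add_pos k i).ne')] at hlog
  simp only [Real.log_pow] at hlog
  have : ∑ i, ((n i : ℝ) - (m i : ℝ)) * Real.log (1 + (P.z k i : ℝ)) = 0 := by
    simp only [sub_mul, Finset.sum_sub_distrib]
    rw [hlog, sub_self]
  rw [this]
  simp

/-- If a rational combination of formal logarithms is small then the combination of logarithms
eventually vanishes. -/
lemma log_comb_zero (c : Fin 4 → ℤ)
    (h : ∑ i, (c i : MvPowerSeries (Fin 4) ℚ) * lw i ∈ P.q) :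
    ∀ᶠ n in U, ∑ i, (c i : ℝ) * Real.log (1 + (P.z n i : ℝ)) = 0 := by
  have h3 : P.Rep (∑ i, (c i : MvPowerSeries (Fin 4) ℚ) * lw i)
      (fun k => ∑ i, (c i : ℝ) * Real.log (1 + (P.z k i : ℝ))) := by
    apply Rep.sum
    intro i _
    have h4 := (rep_C (P := P) (c i : ℚ)).mul (P.rep_lw i)
    rw [map_intCast] at h4
    exact h4.congr (fun k => by push_cast; ring)
  rw [h3.mem_iff] at h
  -- the total exponent
  set E : ℕ := ∑ i, (c i).natAbs with hE
  obtain ⟨C, hC0, hC⟩ := h (2 * P.Λ * E + 1)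
  have h5 := P.eventually_pow_lt C (1 / (2 * 2 ^ E)) (by positivity) (2 * P.Λ * E)
    (2 * P.Λ * E + 1) (Nat.lt_succ_self _)
  have h6 := P.eventually_mul_lt C 1 one_pos (2 * P.Λ * E + 1) (Nat.succ_ne_zero _)
  filter_upwards [hC, h5, h6] with n h7 h8 h9
  set S := ∑ i, (c i : ℝ) * Real.log (1 + (P.z n i : ℝ)) with hS
  by_contra hS0
  -- the rational number exp S
  have hexp : Real.exp S = ∏ i, (1 + (P.z n i : ℝ)) ^ (c i) := by
    rw [hS, Real.exp_sum]
    apply Finset.prod_congr rfl
    intro i _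
    rw [mul_comm, Real.exp_mul, Real.exp_log (P.one_add_pos n i), Real.rpow_intCast]
  let d : Fin 4 → ℝ := fun i => ((P.z n i).den : ℝ)
  let mm : Fin 4 → ℕ := fun i => (((P.z n i).den : ℤ) + (P.z n i).num).natAbs
  have hd : ∀ i, 0 < d i := fun i => by
    simp only [d]; exact_mod_cast (P.z n i).den_pos
  have hzd : ∀ i, (P.z n i : ℝ) * d i = ((P.z n i).num : ℝ) := by
    intro i
    simp only [d]
    exact_mod_cast Rat.mul_den_eq_num (P.z n i)
  have hmm : ∀ i, (mm i : ℝ) = d i * (1 + (P.z n i : ℝ)) := by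
    intro i
    have h10 : d i * (1 + (P.z n i : ℝ)) = ((((P.z n i).den : ℤ) + (P.z n i).num : ℤ) : ℝ) := by
      push_cast
      rw [← hzd i]
      simp only [d]
      ring
    have h11 : (0:ℝ) < d i * (1 + (P.z n i : ℝ)) := mul_pos (hd i) (P.one_add_pos n i)
    rw [h10] at h11
    have h12 : (0:ℤ) < ((P.z n i).den : ℤ) + (P.z n i).num := by exact_mod_cast h11
    rw [h10]
    simp only [mm]
    rw [Nat.cast_natAbs, abs_of_pos h12]
  have hmpos : ∀ i, (0:ℝ) < mm i := fun i => by
    rw [hmm]; exact mul_pos (hd i) (P.one_add_pos n i)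
  have hratio : ∀ i, 1 + (P.z n i : ℝ) = mm i / d i := by
    intro i
    rw [hmm, mul_div_cancel_left₀ _ (hd i).ne']
  let D : ℕ := ∏ i, ((P.z n i).den * mm i) ^ (c i).natAbs
  have hD : (D : ℝ) = ∏ i, (d i * mm i) ^ (c i).natAbs := by
    simp only [D, d]
    push_cast
    rfl
  have hDpos : (0:ℝ) < D := by
    rw [hD]
    exact Finset.prod_pos (fun i _ => pow_pos (mul_pos (hd i) (hmpos i)) _)
  have hk : ∃ k : ℕ, Real.exp S * D = k := by
    have h14 : ∀ i, ∃ k : ℕ, (mm i / d i) ^ (c i) * (d i * mm i) ^ (c i).natAbs = (k : ℝ) := by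
      intro i
      have hdi := (hd i).ne'
      have hmi := (hmpos i).ne'
      rcases le_total 0 (c i) with hc | hc
      · refine ⟨mm i ^ (2 * (c i).natAbs), ?_⟩
        have h15 : (mm i / d i : ℝ) ^ (c i) = (mm i / d i) ^ (c i).natAbs := by
          conv_lhs => rw [← Int.natAbs_of_nonneg hc]
          rw [zpow_natCast]
        rw [h15, ← mul_pow]
        push_cast
        rw [pow_mul]
        congr 1
        field_simp
      · refine ⟨(P.z n i).den ^ (2 * (c i).natAbs), ?_⟩
        have h15 : (mm i / d i : ℝ) ^ (c i) = (d i / mm i) ^ (c i).natAbs := by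
          have h16 : c i = -((c i).natAbs : ℤ) := by omega
          conv_lhs => rw [h16]
          rw [zpow_neg, zpow_natCast, ← inv_pow, inv_div]
        rw [h15, ← mul_pow]
        push_cast
        rw [pow_mul]
        congr 1
        change d i / mm i * (d i * mm i) = d i ^ 2
        field_simp
    choose k hk using h14
    refine ⟨∏ i, k i, ?_⟩
    rw [hexp, hD, ← Finset.prod_mul_distrib]
    push_cast
    apply Finset.prod_congr rfl
    intro i _
    rw [hratio i, hk i]
  obtain ⟨k, hk⟩ := hk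
  have hS1 : |S| ≤ 1 := (h7.trans h9.le)
  have h17 : |Real.exp S - 1| ≤ 2 * |S| := Real.abs_exp_sub_one_le hS1
  have h18 : (1:ℝ) ≤ |Real.exp S - 1| * D := by
    have h36 : |Real.exp S - 1| * D = |(k : ℝ) - D| := by
      rw [← hk, ← sub_one_mul, abs_mul, abs_of_pos hDpos]
    rw [h36]
    have h19 : (k : ℤ) - (D : ℤ) ≠ 0 := by
      intro h
      have h20 : (k : ℝ) = D := by
        have : (k : ℤ) = (D : ℤ) := sub_eq_zero.mp h
        exact_mod_cast this
      rw [h20] at hk
      have h21 : Real.exp S = 1 := by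
        have := mul_right_cancel₀ hDpos.ne' (hk.trans (one_mul _).symm)
        exact this
      rw [Real.exp_eq_one_iff] at h21
      exact hS0 h21
    have h22 : (1:ℤ) ≤ |(k : ℤ) - (D : ℤ)| := Int.one_le_abs h19
    have h23 : ((1:ℤ):ℝ) ≤ ((|(k : ℤ) - (D : ℤ)| : ℤ) : ℝ) := by exact_mod_cast h22
    push_cast at h23
    exact h23
  have h24 : (D : ℝ) * P.ε n ^ (2 * P.Λ * E) ≤ 2 ^ E := by
    have h25 : (2:ℝ) ^ E = ∏ i, (2:ℝ) ^ (c i).natAbs := by
      rw [hE, Finset.prod_pow_eq_pow_sum]
    have h26 : P.ε n ^ (2 * P.Λ * E) = ∏ i, (P.ε n ^ (2 * P.Λ)) ^ (c i).natAbs := by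
      rw [Finset.prod_pow_eq_pow_sum, ← pow_mul]
    rw [hD, h25, h26, ← Finset.prod_mul_distrib]
    apply Finset.prod_le_prod
    · intro i _
      have := (P.ε_pos n).le
      have := (hd i).le
      positivity
    · intro i _
      rw [← mul_pow]
      apply pow_le_pow_left₀
      · have := (P.ε_pos n).le
        have := (hd i).le
        positivity
      · have h27 := P.den_le n i
        have h28 : 1 + (P.z n i : ℝ) ≤ 2 := by
          have := P.z_le n i
          have := P.ε_le n
          have := le_abs_self (P.z n i : ℝ)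
          linarith
        rw [hmm]
        have h29 : 0 ≤ d i * P.ε n ^ P.Λ := mul_nonneg (hd i).le (pow_nonneg (P.ε_pos n).le _)
        calc d i * (d i * (1 + (P.z n i : ℝ))) * P.ε n ^ (2 * P.Λ) =
            (d i * P.ε n ^ P.Λ) * (d i * P.ε n ^ P.Λ) * (1 + (P.z n i : ℝ)) := by
              rw [two_mul, pow_add]; ring
          _ ≤ 1 * 1 * 2 := by
              apply mul_le_mul
              · exact mul_le_mul h27 h27 h29 zero_le_one
              · exact h28
              · exact (P.one_add_pos n i).le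
              · norm_num
          _ = 2 := by norm_num
  have h30 : |S| < 1 / (2 * 2 ^ E) * P.ε n ^ (2 * P.Λ * E) := lt_of_le_of_lt h7 h8
  have h31 : (1:ℝ) ≤ 2 * |S| * D := h18.trans (mul_le_mul_of_nonneg_right h17 hDpos.le)
  have h32 : 2 * |S| * D < 2 * (1 / (2 * 2 ^ E) * P.ε n ^ (2 * P.Λ * E)) * D := by
    apply mul_lt_mul_of_pos_right _ hDpos
    linarith
  have h33 : 2 * (1 / (2 * 2 ^ E) * P.ε n ^ (2 * P.Λ * E)) * D =
      (1 / 2 ^ E) * (D * P.ε n ^ (2 * P.Λ * E)) := by
    field_simp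
  rw [h33] at h32
  have h34 : (1 / 2 ^ E) * ((D : ℝ) * P.ε n ^ (2 * P.Λ * E)) ≤ (1 / 2 ^ E) * 2 ^ E :=
    mul_le_mul_of_nonneg_left h24 (by positivity)
  have h35 : (1 / (2:ℝ) ^ E) * 2 ^ E = 1 := by field_simp
  linarith

end Pts

end Pool.Agent.FourExp
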