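import Mathlib
import Pool.Agent.FourExp.AlgMain
import Pool.Agent.FourExp.Logs

set_option autoImplicit false

namespace Pool.Agent.FourExp.NearOneOld

open MvPowerSeries Finsupp Filter Topology Pool.Agent.FourExp

/-- the four entries of a two by two matrix as a list -/
def idx : Fin 4 → Fin 2 × Fin 2 := ![(0, 0), (0, 1), (1, 0), (1, 1)]

lemma scale_mem (q : Ideal (MvPowerSeries (Fin 4) ℚ)) (r s : ℚ) (a b : MvPowerSeries (Fin 4) ℚ)
    (h : C r * a + C s * b ∈ q) :
    ((r.num * s.den : ℤ) : MvPowerSeries (Fin 4) ℚ) * a +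
      ((s.num * r.den : ℤ) : MvPowerSeries (Fin 4) ℚ) * b ∈ q := by
  have h1 := Ideal.mul_mem_left q (C ((r.den : ℚ) * (s.den : ℚ))) h
  have h2 : C ((r.den : ℚ) * (s.den : ℚ)) * (C r * a + C s * b) =
      ((r.num * s.den : ℤ) : MvPowerSeries (Fin 4) ℚ) * a +
      ((s.num * r.den : ℤ) : MvPowerSeries (Fin 4) ℚ) * b := by
    have e1 : ((r.num * s.den : ℤ) : MvPowerSeries (Fin 4) ℚ) =
        C ((r.den : ℚ) * (s.den : ℚ) * r) := by
      rw [← map_intCast (C : ℚ →+* MvPowerSeries (Fin 4) ℚ)]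
      congr 1
      push_cast
      rw [← Rat.mul_den_eq_num r]
      ring
    have e2 : ((s.num * r.den : ℤ) : MvPowerSeries (Fin 4) ℚ) =
        C ((r.den : ℚ) * (s.den : ℚ) * s) := by
      rw [← map_intCast (C : ℚ →+* MvPowerSeries (Fin 4) ℚ)]
      congr 1
      push_cast
      rw [← Rat.mul_den_eq_num s]
      ring
    rw [e1, e2]
    simp only [map_mul]
    ring
  rwa [h2] at h1

theorem result (δ : ℝ) (hδ : 0 < δ) :
    ∃ C H₀ : ℝ, ∀ H : ℝ, H₀ ≤ H → ∀ a : Fin 2 → Fin 2 → ℚ,
      (∀ i j, 0 < a i j) →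
      (∀ i j, ((a i j).den : ℝ) ≤ H) →
      (∀ i j, |(a i j : ℝ) - 1| ≤ H ^ (-δ)) →
      LinearIndependent ℚ (fun i : Fin 2 => fun j : Fin 2 => Real.log (a i j)) →
      LinearIndependent ℚ (fun j : Fin 2 => fun i : Fin 2 => Real.log (a i j)) →
      H ^ (-C) ≤
        |Real.log (a 0 0) * Real.log (a 1 1) - Real.log (a 0 1) * Real.log (a 1 0)| := by
  by_contra hcon
  push Not at hcon
  have hseq : ∀ n : ℕ, ∃ H : ℝ, ((n:ℝ) + 2) ^ (1 / δ) + 2 ≤ H ∧ ∃ a : Fin 2 → Fin 2 → ℚ,
      (∀ i j, 0 < a i j) ∧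
      (∀ i j, ((a i j).den : ℝ) ≤ H) ∧
      (∀ i j, |(a i j : ℝ) - 1| ≤ H ^ (-δ)) ∧
      LinearIndependent ℚ (fun i : Fin 2 => fun j : Fin 2 => Real.log (a i j)) ∧
      LinearIndependent ℚ (fun j : Fin 2 => fun i : Fin 2 => Real.log (a i j)) ∧
      |Real.log (a 0 0) * Real.log (a 1 1) - Real.log (a 0 1) * Real.log (a 1 0)| <
        H ^ (-(n:ℝ)) := by
    intro n
    obtain ⟨H, hH, a, h1, h2, h3, h4, h5, h6⟩ := hcon (n:ℝ) (((n:ℝ) + 2) ^ (1 / δ) + 2)
    exact ⟨H, hH, a, h1, h2, h3, h4, h5, h6⟩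
  choose H hH a hpos hden hclose hrow hcol hdet using hseq
  have hH2 : ∀ n, 2 ≤ H n := by
    intro n
    have : (0:ℝ) ≤ ((n:ℝ) + 2) ^ (1 / δ) := by positivity
    linarith [hH n]
  have hH1 : ∀ n, 1 ≤ H n := fun n => by linarith [hH2 n]
  have hHpos : ∀ n, 0 < H n := fun n => by linarith [hH2 n]
  have hεle : ∀ n, H n ^ (-δ) ≤ 1 / ((n:ℝ) + 2) := by
    intro n
    have h1 : ((n:ℝ) + 2) ≤ H n ^ δ := by
      have h2 : (((n:ℝ) + 2) ^ (1 / δ)) ^ δ ≤ H n ^ δ := by
        apply Real.rpow_le_rpow (by positivity) (by linarith [hH n]) hδ.le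
      rwa [← Real.rpow_mul (by positivity), one_div_mul_cancel hδ.ne', Real.rpow_one] at h2
    rw [Real.rpow_neg (hHpos n).le, one_div]
    exact inv_anti₀ (by positivity) h1
  obtain ⟨Λ, hΛ⟩ := exists_nat_ge (1 / δ)
  let P : Pts :=
    { z := fun n i => a n (idx i).1 (idx i).2 - 1
      ε := fun n => H n ^ (-δ)
      Λ := Λ
      ε_pos := fun n => Real.rpow_pos_of_pos (hHpos n) _
      ε_le := fun n => (hεle n).trans (by
        apply one_div_le_one_div_of_le two_pos
        have : (0:ℝ) ≤ n := Nat.cast_nonneg n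
        linarith)
      lim := by
        apply squeeze_zero (fun n => (Real.rpow_pos_of_pos (hHpos n) _).le) hεle
        have h1 := tendsto_one_div_add_atTop_nhds_zero_nat (𝕜 := ℝ)
        have h2 := h1.comp (tendsto_add_atTop_nat 1)
        refine h2.congr (fun n => ?_)
        simp only [Function.comp]
        push_cast
        ring
      z_le := fun n i => by
        have := hclose n (idx i).1 (idx i).2
        push_cast
        exact this
      den_le := fun n i => by
        have h1 : (((a n (idx i).1 (idx i).2 - 1).den : ℕ) : ℝ) ≤ H n := by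
          have h2 := Rat.sub_den_dvd (a n (idx i).1 (idx i).2) 1
          rw [Rat.den_one, mul_one] at h2
          have h3 := Nat.le_of_dvd (Rat.den_pos _) h2
          exact le_trans (by exact_mod_cast h3) (hden n _ _)
        have h4 : (H n ^ (-δ)) ^ Λ = H n ^ (-δ * Λ) := by
          rw [Real.rpow_mul (hHpos n).le, Real.rpow_natCast]
        have h5 : H n * H n ^ (-δ * Λ) ≤ 1 := by
          have h6 : H n * H n ^ (-δ * Λ) = H n ^ (1 + (-δ * Λ)) := by
            rw [Real.rpow_add (hHpos n), Real.rpow_one]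
          rw [h6]
          apply Real.rpow_le_one_of_one_le_of_nonpos (hH1 n)
          rw [div_le_iff₀ hδ] at hΛ
          nlinarith
        rw [h4]
        exact (mul_le_mul_of_nonneg_right h1 (Real.rpow_nonneg (hHpos n).le _)).trans h5 }
  have hlog : ∀ n i, Real.log (1 + (P.z n i : ℝ)) =
      Real.log (a n (idx i).1 (idx i).2 : ℝ) := by
    intro n i
    change Real.log (1 + ((a n (idx i).1 (idx i).2 - 1 : ℚ) : ℝ)) = _
    push_cast
    congr 1
    ring
  have h7 : lw 0 * lw 3 - lw 1 * lw 2 ∈ P.q := by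
    have hrep := ((P.rep_lw 0).mul (P.rep_lw 3)).sub ((P.rep_lw 1).mul (P.rep_lw 2))
    rw [hrep.mem_iff]
    intro M
    refine ⟨1, zero_le_one, ?_⟩
    obtain ⟨n₀, hn₀⟩ := exists_nat_ge (δ * M)
    have hev : ∀ᶠ n in (Pts.U : Filter ℕ), n₀ ≤ n :=
      (eventually_ge_atTop n₀).filter_mono Nat.hyperfilter_le_atTop
    filter_upwards [hev] with n hn
    rw [hlog, hlog, hlog, hlog, one_mul]
    have h8 := hdet n
    have h9 : H n ^ (-(n:ℝ)) ≤ (P.ε n) ^ M := by
      change _ ≤ (H n ^ (-δ)) ^ M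
      rw [← Real.rpow_natCast, ← Real.rpow_mul (hHpos n).le]
      apply Real.rpow_le_rpow_of_exponent_le (hH1 n)
      have : (n₀:ℝ) ≤ n := by exact_mod_cast hn
      linarith
    exact h8.le.trans h9
  have hpr := P.q_isPrime
  obtain ⟨r, s, hrs, hor⟩ := alg_main P.q
    (fun f hf => P.constantCoeff_eq_zero_of_small hf) P.rigid_q P.exists_point
    lw lw_const hw1_lw pderiv_lw_ne P.h5_lw h7
  set c0 : ℤ := r.num * s.den with hc0
  set c1 : ℤ := s.num * r.den with hc1
  have hc : c0 ≠ 0 ∨ c1 ≠ 0 := by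
    rcases hrs with h | h
    · left
      exact mul_ne_zero (Rat.num_ne_zero.mpr h) (by exact_mod_cast s.den_nz)
    · right
      exact mul_ne_zero (Rat.num_ne_zero.mpr h) (by exact_mod_cast r.den_nz)
  -- a linear combination of two formal logarithms
  have hcomb : ∀ i j : Fin 4, i ≠ j → C r * lw i + C s * lw j ∈ P.q →
      ∀ᶠ n in (Pts.U : Filter ℕ), (c0 : ℝ) * Real.log (a n (idx i).1 (idx i).2 : ℝ) +
        (c1 : ℝ) * Real.log (a n (idx j).1 (idx j).2 : ℝ) = 0 := by
    intro i j hij hmem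
    have h10 := scale_mem P.q r s _ _ hmem
    rw [← hc0, ← hc1] at h10
    have h11 := P.log_comb_zero (fun k => if k = i then c0 else if k = j then c1 else 0) (by
      have h12 : ∑ k, ((if k = i then c0 else if k = j then c1 else 0 : ℤ) :
          MvPowerSeries (Fin 4) ℚ) * lw k = (c0 : MvPowerSeries (Fin 4) ℚ) * lw i +
          (c1 : MvPowerSeries (Fin 4) ℚ) * lw j := by
        rw [Finset.sum_eq_add i j hij]
        · rw [if_pos rfl, if_neg hij.symm, if_pos rfl]
        · intro k _ hk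
          rw [if_neg hk.1, if_neg hk.2, Int.cast_zero, zero_mul]
        · intro h; exact absurd (Finset.mem_univ _) h
        · intro h; exact absurd (Finset.mem_univ _) h
      rw [h12]
      exact h10)
    filter_upwards [h11] with n hn
    rw [Finset.sum_eq_add i j hij] at hn
    · rw [if_pos rfl, if_neg hij.symm, if_pos rfl, hlog, hlog] at hn
      exact hn
    · intro k _ hk
      rw [if_neg hk.1, if_neg hk.2, Int.cast_zero, zero_mul]
    · intro h; exact absurd (Finset.mem_univ _) h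
    · intro h; exact absurd (Finset.mem_univ _) h
  rcases hor with ⟨h1, h2⟩ | ⟨h1, h2⟩
  · obtain ⟨n, hn1, hn2⟩ := ((hcomb 0 2 (by decide) h1).and (hcomb 1 3 (by decide) h2)).exists
    have h13 := Fintype.linearIndependent_iff.mp (hrow n) (![(c0:ℚ), (c1:ℚ)]) (by
      ext j
      simp only [Fin.sum_univ_two, Matrix.cons_val_zero, Matrix.cons_val_one, Pi.add_apply,
        Pi.smul_apply, Pi.zero_apply, Rat.smul_def]
      push_cast
      fin_cases j
      · exact hn1
      · exact hn2)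
    have h14 := h13 0
    have h15 := h13 1
    simp only [Matrix.cons_val_zero, Matrix.cons_val_one] at h14 h15
    rcases hc with h | h
    · exact h (by exact_mod_cast h14)
    · exact h (by exact_mod_cast h15)
  · obtain ⟨n, hn1, hn2⟩ := ((hcomb 0 1 (by decide) h1).and (hcomb 2 3 (by decide) h2)).exists
    have h13 := Fintype.linearIndependent_iff.mp (hcol n) (![(c0:ℚ), (c1:ℚ)]) (by
      ext j
      simp only [Fin.sum_univ_two, Matrix.cons_val_zero, Matrix.cons_val_one, Pi.add_apply,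
        Pi.smul_apply, Pi.zero_apply, Rat.smul_def]
      push_cast
      fin_cases j
      · exact hn1
      · exact hn2)
    have h14 := h13 0
    have h15 := h13 1
    simp only [Matrix.cons_val_zero, Matrix.cons_val_one] at h14 h15
    rcases hc with h | h
    · exact h (by exact_mod_cast h14)
    · exact h (by exact_mod_cast h15)

end Pool.Agent.FourExp.NearOneOld
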