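import Mathlib

set_option autoImplicit false

namespace Pool.Agent.FourExp.ShortIntervals

/-- `(log t)² ≤ (t - 1)² / t`. -/
lemma log_sq_le (t : ℝ) (ht : 0 < t) : (Real.log t) ^ 2 ≤ (t - 1) ^ 2 / t := by
  have h1 : ∀ y : ℝ, y ^ 2 ≤ Real.sinh y ^ 2 := by
    intro y
    rw [sq_le_sq]
    rcases le_total 0 y with hy | hy
    · have := Real.self_le_sinh_iff.mpr hy
      rw [abs_of_nonneg hy, abs_of_nonneg (hy.trans this)]
      exact this
    · have := Real.sinh_le_self_iff.mpr hy
      rw [abs_of_nonpos hy, abs_of_nonpos (this.trans hy)]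
      linarith
  have h2 := h1 (Real.log t / 2)
  have h3 : 4 * Real.sinh (Real.log t / 2) ^ 2 = t + t⁻¹ - 2 := by
    have h4 := Real.cosh_two_mul (Real.log t / 2)
    have h5 := Real.cosh_sq (Real.log t / 2)
    rw [mul_div_cancel₀ _ (two_ne_zero)] at h4
    rw [Real.cosh_log ht] at h4
    linarith
  have h6 : (t - 1) ^ 2 / t = t + t⁻¹ - 2 := by
    field_simp
    ring
  rw [h6]
  nlinarith

/-- The key step: products must agree. -/
lemma core_lt (q A lam : ℝ) (hq : 0 < q) (hA : 1 < A)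
    (hlam : q * lam ^ 2 * (1 + 1 / Real.log A) < 4 * A) (a d b c : ℕ)
    (hda : d ≤ a) (hcb : c ≤ b)
    (ha : (a : ℝ) ≤ q * (A + lam)) (hd : q * A ≤ (d : ℝ))
    (hb : (b : ℝ) ≤ q * (A + lam)) (hc : q * A ≤ (c : ℝ))
    (hrel : Real.log (a / q) * Real.log (d / q) = Real.log (b / q) * Real.log (c / q))
    (hlt : b * c < a * d) : False := by
  have hlogA : 0 < Real.log A := Real.log_pos hA
  have hqA : 0 < q * A := by positivity
  have hda' : (d : ℝ) ≤ a := by exact_mod_cast hda
  have hcb' : (c : ℝ) ≤ b := by exact_mod_cast hcb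
  have hd0 : (0 : ℝ) < d := lt_of_lt_of_le hqA hd
  have hc0 : (0 : ℝ) < c := lt_of_lt_of_le hqA hc
  have ha0 : (0 : ℝ) < a := lt_of_lt_of_le hd0 hda'
  have hb0 : (0 : ℝ) < b := lt_of_lt_of_le hc0 hcb'
  have hlt' : (b : ℝ) * c < a * d := by exact_mod_cast hlt
  have e : ∀ x : ℝ, 0 < x → Real.log (x / q) = Real.log x - Real.log q := fun x hx =>
    Real.log_div hx.ne' hq.ne'
  rw [e a ha0, e b hb0, e c hc0, e d hd0] at hrel
  -- the sums of logarithms
  set S : ℝ := (Real.log a - Real.log q) + (Real.log d - Real.log q) with hS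
  set S' : ℝ := (Real.log b - Real.log q) + (Real.log c - Real.log q) with hS'
  have hkey : (Real.log a - Real.log d) ^ 2 - (Real.log b - Real.log c) ^ 2 =
      (S - S') * (S + S') := by
    rw [hS, hS']
    linear_combination (-4) * hrel
  have hlog_ge : ∀ x : ℝ, q * A ≤ x → Real.log A ≤ Real.log x - Real.log q := by
    intro x hx
    have : Real.log (q * A) ≤ Real.log x := Real.log_le_log hqA hx
    rw [Real.log_mul hq.ne' (by linarith)] at this
    linarith
  have hsum : 4 * Real.log A ≤ S + S' := by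
    have h1 := hlog_ge a (hd.trans hda')
    have h2 := hlog_ge d hd
    have h3 := hlog_ge b (hc.trans hcb')
    have h4 := hlog_ge c hc
    rw [hS, hS']
    linarith
  have hdiff : (a * d - b * c) / (a * d) ≤ S - S' := by
    have h1 : S - S' = Real.log ((a * d) / (b * c)) := by
      rw [Real.log_div (by positivity) (by positivity), Real.log_mul ha0.ne' hd0.ne',
        Real.log_mul hb0.ne' hc0.ne', hS, hS']
      ring
    rw [h1]
    have h2 := Real.one_sub_inv_le_log_of_pos (x := (a * d : ℝ) / (b * c)) (by positivity)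
    have h3 : 1 - ((a * d : ℝ) / (b * c))⁻¹ = (a * d - b * c) / (a * d) := by
      field_simp
    rw [h3] at h2
    exact h2
  have hdiff_pos : 0 < S - S' := by
    refine lt_of_lt_of_le ?_ hdiff
    apply div_pos
    · linarith
    · positivity
  have hsq : (Real.log a - Real.log d) ^ 2 ≤ (a - d) ^ 2 / (a * d) := by
    have h1 := log_sq_le ((a : ℝ) / d) (by positivity)
    rw [Real.log_div ha0.ne' hd0.ne'] at h1
    refine h1.trans (le_of_eq ?_)
    field_simp
  -- first inequality: `4 r log A ≤ (a - d)²`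
  have hr : ((a : ℝ) * d - b * c) * (4 * Real.log A) ≤ (a - d) ^ 2 := by
    have h1 : (a * d - b * c) / (a * d) * (4 * Real.log A) ≤ (S - S') * (S + S') :=
      mul_le_mul hdiff hsum (by positivity) hdiff_pos.le
    have h2 : (S - S') * (S + S') ≤ (a - d) ^ 2 / (a * d) := by
      rw [← hkey]
      have := sq_nonneg (Real.log b - Real.log c)
      linarith
    have h3 := h1.trans h2
    have h4 : (0:ℝ) < a * d := by positivity
    rw [div_mul_eq_mul_div, div_le_div_iff_of_pos_right h4] at h3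
    exact h3
  have hlen1 : ((a : ℝ) - d) ^ 2 ≤ (q * lam) ^ 2 := by
    apply pow_le_pow_left₀ (by linarith)
    linarith
  have hlen2 : ((b : ℝ) - c) ^ 2 ≤ (q * lam) ^ 2 := by
    apply pow_le_pow_left₀ (by linarith)
    linarith
  have hbig : (q * lam) ^ 2 * (1 + 1 / Real.log A) < 4 * (q * A) := by
    have := mul_lt_mul_of_pos_left hlam hq
    calc (q * lam) ^ 2 * (1 + 1 / Real.log A) = q * (q * lam ^ 2 * (1 + 1 / Real.log A)) := by ring
      _ < q * (4 * A) := this
      _ = 4 * (q * A) := by ring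
  have hbig1 : (q * lam) ^ 2 < 4 * (q * A) := by
    have h1 : (q * lam) ^ 2 * 1 ≤ (q * lam) ^ 2 * (1 + 1 / Real.log A) := by
      apply mul_le_mul_of_nonneg_left _ (sq_nonneg _)
      have : 0 < 1 / Real.log A := by positivity
      linarith
    linarith
  rcases lt_trichotomy (a + d) (b + c) with hlt2 | heq | hgt
  · have h1 : ((a : ℝ) + d) + 1 ≤ b + c := by exact_mod_cast hlt2
    have h2 : 1 * (4 * (q * A)) ≤ (((b : ℝ) + c) - (a + d)) * ((b + c) + (a + d)) := by
      apply mul_le_mul (by linarith) (by linarith) (by positivity) (by linarith)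
    have h3 := sq_nonneg ((a : ℝ) - d)
    have h4 : (((b : ℝ) + c) - (a + d)) * ((b + c) + (a + d)) =
      -4 * ((a : ℝ) * d - b * c) - (a - d) ^ 2 + (b - c) ^ 2 := by ring
    linarith
  · -- equal sums
    have h1 : ((a : ℝ) + d) = b + c := by exact_mod_cast heq
    have h2 : (a : ℝ) < b := by
      by_contra hcon
      push Not at hcon
      have h3 : (0 : ℝ) ≤ (a - b) * (b - d) := by
        apply mul_nonneg (by linarith)
        linarith
      have h8 : (a : ℝ) = b + c - d := by linarith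
      rw [h8] at h3 hlt'
      have h9 : ((b : ℝ) + c - d - b) * (b - d) = (b + c - d) * d * (-1) + b * c := by ring
      rw [h9] at h3
      linarith
    have h3 : (c : ℝ) < d := by linarith
    have h4 : Real.log a < Real.log b := Real.log_lt_log ha0 h2
    have h5 : Real.log c < Real.log d := Real.log_lt_log hc0 h3
    have h6 : Real.log d ≤ Real.log a := Real.log_le_log hd0 hda'
    have h7 : 0 < (S - S') * (S + S') := mul_pos hdiff_pos (by linarith)
    rw [← hkey] at h7
    have h8 : (Real.log a - Real.log d) ^ 2 ≤ (Real.log b - Real.log c) ^ 2 := by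
      apply pow_le_pow_left₀ (by linarith)
      linarith
    linarith
  · have h1 : ((b : ℝ) + c) + 1 ≤ a + d := by exact_mod_cast hgt
    have h2 : 4 * (q * A) ≤ 4 * ((a : ℝ) * d - b * c) + (a - d) ^ 2 := by
      have h3 : 1 * (4 * (q * A)) ≤ (((a : ℝ) + d) - (b + c)) * ((b + c) + (a + d)) := by
        apply mul_le_mul (by linarith) (by linarith) (by positivity) (by linarith)
      have h4 := sq_nonneg ((b : ℝ) - c)
      have h5 : (((a : ℝ) + d) - (b + c)) * ((b + c) + (a + d)) =
        4 * ((a : ℝ) * d - b * c) + (a - d) ^ 2 - (b - c) ^ 2 := by ring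
      linarith
    have h3 : 4 * ((a : ℝ) * d - b * c) ≤ (a - d) ^ 2 * (1 / Real.log A) := by
      rw [mul_one_div, le_div_iff₀ hlogA]
      linarith
    have h4 : 4 * ((a : ℝ) * d - b * c) + (a - d) ^ 2 ≤
        (q * lam) ^ 2 * (1 + 1 / Real.log A) := by
      have h5 : ((a : ℝ) - d) ^ 2 * (1 / Real.log A) ≤ (q * lam) ^ 2 * (1 / Real.log A) :=
        mul_le_mul_of_nonneg_right hlen1 (by positivity)
      have h6 : (q * lam) ^ 2 * (1 + 1 / Real.log A) =
        (q * lam) ^ 2 + (q * lam) ^ 2 * (1 / Real.log A) := by ring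
      linarith
    linarith

lemma core_eq (q A : ℝ) (hq : 0 < q) (hA : 1 < A) (a d b c : ℕ)
    (hda : d ≤ a) (hcb : c ≤ b) (hd : q * A ≤ (d : ℝ)) (hc : q * A ≤ (c : ℝ))
    (hrel : Real.log (a / q) * Real.log (d / q) = Real.log (b / q) * Real.log (c / q))
    (heq : b * c = a * d) : a = b ∧ d = c := by
  have hqA : 0 < q * A := by positivity
  have hda' : (d : ℝ) ≤ a := by exact_mod_cast hda
  have hcb' : (c : ℝ) ≤ b := by exact_mod_cast hcb
  have hd0 : (0 : ℝ) < d := lt_of_lt_of_le hqA hd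
  have hc0 : (0 : ℝ) < c := lt_of_lt_of_le hqA hc
  have ha0 : (0 : ℝ) < a := lt_of_lt_of_le hd0 hda'
  have hb0 : (0 : ℝ) < b := lt_of_lt_of_le hc0 hcb'
  have e : ∀ x : ℝ, 0 < x → Real.log (x / q) = Real.log x - Real.log q := fun x hx =>
    Real.log_div hx.ne' hq.ne'
  rw [e a ha0, e b hb0, e c hc0, e d hd0] at hrel
  have hprod : Real.log b + Real.log c = Real.log a + Real.log d := by
    rw [← Real.log_mul hb0.ne' hc0.ne', ← Real.log_mul ha0.ne' hd0.ne']
    congr 1
    exact_mod_cast heq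
  have h1 : Real.log d ≤ Real.log a := Real.log_le_log hd0 hda'
  have h2 : Real.log c ≤ Real.log b := Real.log_le_log hc0 hcb'
  have h3 : (Real.log a - Real.log d) ^ 2 = (Real.log b - Real.log c) ^ 2 := by
    linear_combination (-4) * hrel +
      (Real.log q * 4 - (Real.log b + Real.log c) - (Real.log a + Real.log d)) * hprod
  have h4 : Real.log a - Real.log d = Real.log b - Real.log c := by
    have := abs_eq_abs.mpr (sq_eq_sq_iff_eq_or_eq_neg.mp h3)
    rwa [abs_of_nonneg (by linarith), abs_of_nonneg (by linarith)] at this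
  have h5 : Real.log a = Real.log b := by linarith
  have h6 : Real.log d = Real.log c := by linarith
  have h7 := Real.log_injOn_pos (Set.mem_Ioi.mpr ha0) (Set.mem_Ioi.mpr hb0) h5
  have h8 := Real.log_injOn_pos (Set.mem_Ioi.mpr hd0) (Set.mem_Ioi.mpr hc0) h6
  exact ⟨by exact_mod_cast h7, by exact_mod_cast h8⟩

lemma core (q A lam : ℝ) (hq : 0 < q) (hA : 1 < A)
    (hlam : q * lam ^ 2 * (1 + 1 / Real.log A) < 4 * A) (a d b c : ℕ)
    (hda : d ≤ a) (hcb : c ≤ b)
    (ha : (a : ℝ) ≤ q * (A + lam)) (hd : q * A ≤ (d : ℝ))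
    (hb : (b : ℝ) ≤ q * (A + lam)) (hc : q * A ≤ (c : ℝ))
    (hrel : Real.log (a / q) * Real.log (d / q) = Real.log (b / q) * Real.log (c / q)) :
    a = b ∧ d = c := by
  rcases lt_trichotomy (b * c) (a * d) with h | h | h
  · exact (core_lt q A lam hq hA hlam a d b c hda hcb ha hd hb hc hrel h).elim
  · exact core_eq q A hq hA a d b c hda hcb hd hc hrel h
  · exact (core_lt q A lam hq hA hlam b c a d hcb hda hb hc ha hd hrel.symm h).elim

theorem result (q : ℕ) (hq : 0 < q) (A lam : ℝ) (hA : 1 < A)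
    (hlam : (q : ℝ) * lam ^ 2 * (1 + 1 / Real.log A) < 4 * A)
    (n : Fin 2 → Fin 2 → ℕ)
    (hn : ∀ i j, A ≤ (n i j : ℝ) / q ∧ (n i j : ℝ) / q ≤ A + lam)
    (hdet : Real.log ((n 0 0 : ℝ) / q) * Real.log ((n 1 1 : ℝ) / q) =
      Real.log ((n 0 1 : ℝ) / q) * Real.log ((n 1 0 : ℝ) / q)) :
    (∀ i, n i 0 = n i 1) ∨ (∀ j, n 0 j = n 1 j) := by
  have hq' : (0 : ℝ) < q := by exact_mod_cast hq
  have hlo : ∀ i j, (q : ℝ) * A ≤ (n i j : ℝ) := by
    intro i j
    have := (hn i j).1
    rw [le_div_iff₀ hq'] at this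
    linarith
  have hhi : ∀ i j, (n i j : ℝ) ≤ q * (A + lam) := by
    intro i j
    have := (hn i j).2
    rw [div_le_iff₀ hq'] at this
    linarith
  rcases le_total (n 1 1) (n 0 0) with h1 | h1 <;> rcases le_total (n 1 0) (n 0 1) with h2 | h2
  · obtain ⟨h3, h4⟩ := core q A lam hq' hA hlam (n 0 0) (n 1 1) (n 0 1) (n 1 0) h1 h2
      (hhi _ _) (hlo _ _) (hhi _ _) (hlo _ _) hdet
    left
    intro i
    fin_cases i
    · exact h3
    · exact h4.symm
  · obtain ⟨h3, h4⟩ := core q A lam hq' hA hlam (n 0 0) (n 1 1) (n 1 0) (n 0 1) h1 h2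
      (hhi _ _) (hlo _ _) (hhi _ _) (hlo _ _) (by rw [hdet, mul_comm])
    right
    intro j
    fin_cases j
    · exact h3
    · exact h4.symm
  · obtain ⟨h3, h4⟩ := core q A lam hq' hA hlam (n 1 1) (n 0 0) (n 0 1) (n 1 0) h1 h2
      (hhi _ _) (hlo _ _) (hhi _ _) (hlo _ _) (by rw [← hdet, mul_comm])
    right
    intro j
    fin_cases j
    · exact h4
    · exact h3.symm
  · obtain ⟨h3, h4⟩ := core q A lam hq' hA hlam (n 1 1) (n 0 0) (n 1 0) (n 0 1) h1 h2
      (hhi _ _) (hlo _ _) (hhi _ _) (hlo _ _) (by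
        rw [mul_comm, hdet, mul_comm])
    left
    intro i
    fin_cases i
    · exact h4
    · exact h3.symm

end Pool.Agent.FourExp.ShortIntervals
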